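import Mathlib
import Pool.Agent.N909.CM.Gen

set_option autoImplicit false
set_option linter.unusedSectionVars false

/-! # Random Collatz maps, lower bounds: definitions and statements of the parts -/

open MeasureTheory Filter Set
open scoped ENNReal Topology

namespace Pool.Agent.N909.CL

open Pool.Agent.R528.RM Pool.Agent.N909.CM

/-- the value after the word `w` of decisions, starting from `n` -/
def val : ℕ → List Bool → ℕ
  | n, [] => n
  | n, d :: w => val (stp d n) w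

/-- the positions at which the decisions of `w` are taken -/
def pos : ℕ → List Bool → List ℕ
  | _, [] => []
  | n, d :: w => n :: pos (stp d n) w

/-- the decisions of the path as a partial function of the position (the first one counts) -/
def dec : ℕ → List Bool → ℕ → Option Bool
  | _, [], _ => none
  | n, d :: w, p => if p = n then some d else dec (stp d n) w p

/-- words of length `b` with `u` letters `true` -/
def Blk (b u : ℕ) : Finset (List Bool) :=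
  (Finset.univ : Finset (List.Vector Bool b)).image (fun v => v.toList) |>.filter (fun w => w.count true = u)

/-- concatenations of `J` words of `Blk b u` -/
def Pat (b u : ℕ) : ℕ → Finset (List Bool)
  | 0 => {[]}
  | J + 1 => (Blk b u ×ˢ Pat b u J).image (fun x => x.1 ++ x.2)

/-- the weight of a second path relative to the decisions `g` of a first one -/
noncomputable def Phi (L : ℝ) (g : ℕ → Option Bool) : ℕ → List Bool → ℝ
  | _, [] => 1
  | n, d :: w => (match g n with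
      | none => 1
      | some e => if d = e then L else 0) * Phi L g (stp d n) w

section meas

variable {Ω : Type} {m0 : MeasurableSpace Ω} (μ : Measure Ω) (ℱ : Filtration ℕ m0) (B : ℕ → Set Ω)

open Classical in
/-- the inverse probability weight of the decision `d` at `p` -/
noncomputable def y (d : Bool) (p : ℕ) (ω : Ω) : ℝ :=
  if d then (if ω ∈ B p then 1 else 0) / dens μ ℱ B (p - 1) ω
  else (if ω ∈ B p then 0 else 1) / (1 - dens μ ℱ B (p - 1) ω)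

/-- the weight of a path -/
noncomputable def W : ℕ → List Bool → Ω → ℝ
  | _, [], _ => 1
  | n, d :: w, ω => y μ ℱ B d n ω * W (stp d n) w ω

end meas

/-! ### Statements of the parts -/

/-- A: the product of the weights at different positions has mean one -/
def StmA : Prop := ∀ {Ω : Type} {m0 : MeasurableSpace Ω} (μ : Measure Ω) [IsProbabilityMeasure μ]
  (ℱ : Filtration ℕ m0) (B : ℕ → Set Ω), (∀ n, MeasurableSet[ℱ n] (B n)) → ∀ (K : ℕ) (η : ℝ), 0 < η → η < 1 / 2 →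
  (∀ n, K ≤ n → ∀ᵐ ω ∂μ, |dens μ ℱ B n ω - 1 / 2| ≤ η) → ∀ (F : Finset ℕ) (d : ℕ → Bool), (∀ p ∈ F, K < p) →
  Integrable (fun ω => ∏ p ∈ F, y μ ℱ B (d p) p ω) μ ∧ ∫ ω, ∏ p ∈ F, y μ ℱ B (d p) p ω ∂μ = 1

/-- B: one path and two paths -/
def StmB : Prop := ∀ {Ω : Type} {m0 : MeasurableSpace Ω} (μ : Measure Ω) [IsProbabilityMeasure μ]
  (ℱ : Filtration ℕ m0) (B : ℕ → Set Ω), (∀ n, MeasurableSet[ℱ n] (B n)) → ∀ (K : ℕ) (η : ℝ), 0 < η → η < 1 / 2 →
  (∀ n, K ≤ n → ∀ᵐ ω ∂μ, |dens μ ℱ B n ω - 1 / 2| ≤ η) →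
  ∀ (n : ℕ) (w : List Bool), (pos n w).Nodup → (∀ p ∈ pos n w, K < p) →
    (Integrable (fun ω => W μ ℱ B n w ω) μ ∧ ∫ ω, W μ ℱ B n w ω ∂μ = 1) ∧
    ∀ (n' : ℕ) (w' : List Bool), (pos n' w').Nodup → (∀ p ∈ pos n' w', K < p) →
      Integrable (fun ω => W μ ℱ B n w ω * W μ ℱ B n' w' ω) μ ∧
      ∫ ω, W μ ℱ B n w ω * W μ ℱ B n' w' ω ∂μ ≤ Phi (1 / (1 / 2 - η)) (dec n w) n' w'

/-- C: the sum of the weights of the paths which meet the first one -/
def StmC : Prop := ∀ (L : ℝ), 2 ≤ L → ∀ (g : ℕ → Option Bool) (P : Finset ℕ), (∀ p, (g p).isSome → p ∈ P) →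
  ∀ (I : Finset ℕ) (S : Finset (List Bool)) (k : ℕ), (∀ w ∈ S, w.length = k) →
  ∑ x ∈ (I ×ˢ S).filter (fun x => ∃ p ∈ pos x.1 x.2, (g p).isSome), Phi L g x.1 x.2 ≤
    ∑ i ∈ Finset.range k, L ^ (k - i) *
      (((I ×ˢ S.image (fun w => w.take i)).filter (fun x => val x.1 x.2 ∈ P)).card : ℝ)

/-- D: the number of starting points with a given value after a given word -/
def StmD : Prop := ∀ (v : List Bool) (z : ℕ), ({n : ℕ | val n v = z}).Finite ∧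
  (({n : ℕ | val n v = z}).ncard : ℝ) ≤
    1 + 1 / 2 * ∑ j ∈ Finset.Icc 1 v.length, (2 : ℝ) ^ j / 3 ^ ((v.take j).count true)

/-- E: the block words -/
def StmE : Prop := ∀ b u J : ℕ, 1 ≤ b → u ≤ b → (Pat b u J).card = (b.choose u) ^ J ∧ ∀ w ∈ Pat b u J,
  w.length = b * J ∧ (∀ j ≤ b * J, (j / b) * u ≤ (w.take j).count true ∧ (w.take j).count true ≤ (j / b + 1) * u) ∧
  ∀ j ≤ b * J, ∃ v ∈ Pat b u (j / b), ∃ r : List Bool, r.length = j % b ∧ w.take j = v ++ r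

/-- F1: values along block words: for large `X`, all `n ∈ (X, 2X]` and all `J` with
`(2^b/3^u)^J ≤ X^(1-δ)` -/
def StmF1 : Prop := ∀ b u : ℕ, 1 ≤ b → u ≤ b → 2 ^ b ≠ 3 ^ u → ∀ δ : ℝ, 0 < δ → δ < 1 →
  ∀ᶠ X : ℕ in atTop, ∀ J : ℕ, ((2 : ℝ) ^ b / 3 ^ u) ^ J ≤ (X : ℝ) ^ (1 - δ) →
    ∀ n ∈ Finset.Ioc X (2 * X), ∀ w ∈ Pat b u J, (∀ p ∈ pos n w, (X : ℝ) ^ (δ / 2) < p) ∧
      (X : ℝ) * (3 ^ u / 2 ^ b) ^ J / 2 ≤ val n w

/-- F2: different positions along block words -/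
def StmF2 : Prop := ∀ b u : ℕ, 1 ≤ b → u ≤ b → 2 ^ b ≠ 3 ^ u → ∀ δ C : ℝ, 0 < δ → 0 < C →
  ∀ᶠ X : ℕ in atTop, ∀ J : ℕ, (J : ℝ) ≤ C * Real.log X →
    ∀ n : ℕ, ∀ w ∈ Pat b u J, (∀ p ∈ pos n w, (X : ℝ) ^ δ < p) → (pos n w).Nodup

/-- G: second moments -/
def StmG : Prop := ∀ {Ω : Type} {m0 : MeasurableSpace Ω} (μ : Measure Ω) [IsProbabilityMeasure μ]
  (Z : ℕ → Ω → ℝ) (m r : ℕ → ℝ), (∀ᶠ j in atTop, 0 < m j ∧ Integrable (Z j) μ ∧ Integrable (fun ω => Z j ω ^ 2) μ ∧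
    ∫ ω, Z j ω ∂μ = m j ∧ ∫ ω, Z j ω ^ 2 ∂μ ≤ m j ^ 2 * (1 + r j)) → Summable r →
  ∀ᵐ ω ∂μ, ∀ᶠ j in atTop, 0 < Z j ω

/-- H: binomial coefficients -/
def StmH : Prop := ∀ b u : ℕ, 0 < u → u < b →
  Real.exp (b * Real.binEntropy ((u : ℝ) / b)) ≤ (b + 1) * (b.choose u : ℝ)

/-- I: parameters for the stopping time constant -/
def StmI : Prop := ∀ p : ℝ, 1 / 2 < p → p < 1 → Real.binEntropy p = p * Real.log 3 →
  0 < Real.log 2 - p * Real.log 3 ∧
  (∀ γ : ℝ, 0 < γ → γ < 1 / (Real.log 2 - p * Real.log 3) → ∃ b u : ℕ, 0 < u ∧ u < b ∧ 3 ^ u < 2 ^ b ∧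
    3 ^ u ≤ b.choose u ∧ γ < b / Real.log ((2 : ℝ) ^ b / 3 ^ u)) ∧
  ∃ θ : ℝ, 0 < θ ∧ θ < 1 ∧ (1 + θ) / (-Real.log (mm θ)) = 1 / (Real.log 2 - p * Real.log 3)

/-- J: parameters for the largest values -/
def StmJ : Prop := ∀ ε : ℝ, 0 < ε → ∃ b u : ℕ, 0 < u ∧ u < b ∧ 2 ^ b < 3 ^ u ∧
  1 - ε < Real.log ((3 : ℝ) ^ u / 2 ^ b) / Real.log ((2 : ℝ) ^ b / b.choose u)

end Pool.Agent.N909.CL
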