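import Mathlib
import Pool.Agent.N909.CL.Def

set_option autoImplicit false
set_option linter.unusedSectionVars false

/-! # Random Collatz maps, lower bounds: counting -/

open MeasureTheory Filter Set
open scoped ENNReal Topology

namespace Pool.Agent.N909.CL

open Pool.Agent.R528.RM Pool.Agent.N909.CM

lemma Phi_one (L : ℝ) (g : ℕ → Option Bool) : ∀ (w : List Bool) (n : ℕ), (∀ p ∈ pos n w, ¬ (g p).isSome) →
    Phi L g n w = 1
  | [], n, _ => rfl
  | d :: w, n, h => by
    have h1 : g n = none := by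
      have := h n (by simp [pos])
      simpa using this
    have h2 := Phi_one L g w (stp d n) (fun p hp => h p (by simp [pos, hp]))
    simp only [Phi, h1, h2, mul_one]

lemma Phi_nonneg {L : ℝ} (hL : 0 ≤ L) (g : ℕ → Option Bool) : ∀ (w : List Bool) (n : ℕ), 0 ≤ Phi L g n w
  | [], n => zero_le_one
  | d :: w, n => by
    simp only [Phi]
    refine mul_nonneg ?_ (Phi_nonneg hL g w _)
    split
    · exact zero_le_one
    · split
      · exact hL
      · exact le_rfl

lemma dec_mem : ∀ (w : List Bool) (n p : ℕ), (dec n w p).isSome → p ∈ pos n w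
  | [], n, p, h => by simp [dec] at h
  | d :: w, n, p, h => by
    simp only [dec] at h
    by_cases hp : p = n
    · simp [pos, hp]
    · rw [if_neg hp] at h
      simp only [pos, List.mem_cons]
      exact Or.inr (dec_mem w _ p h)

lemma pos_length : ∀ (w : List Bool) (n : ℕ), (pos n w).length = w.length
  | [], n => rfl
  | d :: w, n => by simp [pos, pos_length w]

/-- the number of prefixes -/
lemma card_pre (hE : StmE) {b u J : ℕ} (hb : 1 ≤ b) (hu : u ≤ b) {i : ℕ} (hi : i ≤ b * J) :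
    ((Pat b u J).image (fun w => w.take i)).card ≤ (b.choose u) ^ (i / b) * 2 ^ b := by
  classical
  obtain ⟨-, h2⟩ := hE b u J hb hu
  set V : Finset (List Bool) := (Finset.univ : Finset (List.Vector Bool (i % b))).image (fun v => v.toList) with hV
  have hVc : V.card ≤ 2 ^ b := by
    refine Finset.card_image_le.trans ?_
    rw [Finset.card_univ, card_vector, Fintype.card_bool]
    exact Nat.pow_le_pow_right (by norm_num) (Nat.mod_lt _ (by omega)).le
  have hsub : (Pat b u J).image (fun w => w.take i) ⊆ (Pat b u (i / b) ×ˢ V).image (fun x => x.1 ++ x.2) := by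
    intro v hv
    rw [Finset.mem_image] at hv
    obtain ⟨w, hw, rfl⟩ := hv
    obtain ⟨-, -, h3⟩ := h2 w hw
    obtain ⟨v, hv, r, hr, h4⟩ := h3 i hi
    rw [Finset.mem_image]
    refine ⟨(v, r), ?_, h4.symm⟩
    rw [Finset.mem_product]
    refine ⟨hv, ?_⟩
    rw [hV, Finset.mem_image]
    exact ⟨⟨r, hr⟩, Finset.mem_univ _, rfl⟩
  refine (Finset.card_le_card hsub).trans (Finset.card_image_le.trans ?_)
  rw [Finset.card_product, (hE b u (i / b) hb hu).1]
  exact Nat.mul_le_mul_left _ hVc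

/-- the number of starting points -/
lemma card_fib (hD : StmD) (hE : StmE) {b u J : ℕ} (hb : 1 ≤ b) (hu : u ≤ b) {i : ℕ} (hi : i ≤ b * J)
    {v : List Bool} (hv : v ∈ (Pat b u J).image (fun w => w.take i)) (z : ℕ) (I : Finset ℕ) :
    ((I.filter (fun n => val n v = z)).card : ℝ) ≤ (1 + b * J * 2 ^ b) * (max 1 ((2 : ℝ) ^ b / 3 ^ u)) ^ (i / b) := by
  classical
  obtain ⟨h0, h1⟩ := hD v z
  have h2 : (I.filter (fun n => val n v = z)).card ≤ ({n : ℕ | val n v = z}).ncard := by
    rw [← Set.ncard_coe_finset]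
    apply Set.ncard_le_ncard _ h0
    intro n hn
    simp only [Finset.coe_filter, mem_ofPred_eq] at hn ⊢
    exact hn.2
  have h3 : ((I.filter (fun n => val n v = z)).card : ℝ) ≤ (({n : ℕ | val n v = z}).ncard : ℝ) := by exact_mod_cast h2
  refine h3.trans (h1.trans ?_)
  rw [Finset.mem_image] at hv
  obtain ⟨w, hw, rfl⟩ := hv
  obtain ⟨hlen, hcnt, -⟩ := (hE b u J hb hu).2 w hw
  have hlen2 : (w.take i).length = i := by rw [List.length_take, hlen]; omega
  rw [hlen2]
  set R : ℝ := max 1 ((2 : ℝ) ^ b / 3 ^ u) with hR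
  have hR1 : 1 ≤ R := le_max_left _ _
  have hterm : ∀ j ∈ Finset.Icc 1 i, (2 : ℝ) ^ j / 3 ^ (((w.take i).take j).count true) ≤ 2 ^ b * R ^ (i / b) := by
    intro j hj
    rw [Finset.mem_Icc] at hj
    have e1 : (w.take i).take j = w.take j := by
      rw [List.take_take, min_eq_left hj.2]
    rw [e1]
    have h4 := (hcnt j (by omega)).1
    have h5 : (2 : ℝ) ^ j ≤ 2 ^ b * (2 ^ b) ^ (j / b) := by
      rw [← pow_mul, ← pow_add]
      apply pow_le_pow_right₀ (by norm_num)
      have := Nat.div_add_mod j b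
      have h6 := Nat.mod_lt j (by omega : 0 < b)
      omega
    have h7 : (3 : ℝ) ^ ((j / b) * u) ≤ 3 ^ ((w.take j).count true) := pow_le_pow_right₀ (by norm_num) h4
    calc (2 : ℝ) ^ j / 3 ^ ((w.take j).count true) ≤ (2 ^ b * (2 ^ b) ^ (j / b)) / 3 ^ ((j / b) * u) := by
          gcongr
      _ = 2 ^ b * ((2 : ℝ) ^ b / 3 ^ u) ^ (j / b) := by
          rw [div_pow, ← pow_mul 3 u, mul_comm u, mul_div_assoc]
      _ ≤ 2 ^ b * R ^ (j / b) := by
          gcongr
          exact le_max_right _ _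
      _ ≤ 2 ^ b * R ^ (i / b) := by
          gcongr
          exact hj.2
  have hsum := Finset.sum_le_card_nsmul _ _ _ hterm
  rw [Nat.card_Icc, nsmul_eq_mul] at hsum
  have h8 : ((i + 1 - 1 : ℕ) : ℝ) ≤ b * J := by
    rw [Nat.add_sub_cancel]
    exact_mod_cast hi
  have h9 : (1 : ℝ) ≤ R ^ (i / b) := one_le_pow₀ hR1
  have h10 : ((i + 1 - 1 : ℕ) : ℝ) * (2 ^ b * R ^ (i / b)) ≤ (b * J) * (2 ^ b * R ^ (i / b)) :=
    mul_le_mul_of_nonneg_right h8 (by positivity)
  have h11 : (0 : ℝ) ≤ (b * J) * (2 ^ b * R ^ (i / b)) := by positivity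
  have h12 : (1 + (b : ℝ) * J * 2 ^ b) * R ^ (i / b) = R ^ (i / b) + (b * J) * (2 ^ b * R ^ (i / b)) := by ring
  rw [h12]
  linarith

/-- the weights of all second paths -/
theorem sum_Phi (hC : StmC) (hD : StmD) (hE : StmE) {b u J : ℕ} (hb : 1 ≤ b) (hu : u ≤ b) {L A : ℝ} (hL : 2 ≤ L)
    (hA1 : 1 ≤ A) (hA2 : (2 : ℝ) ^ b / 3 ^ u ≤ A) (hA3 : L ^ b ≤ A * (b.choose u)) {n : ℕ} {w : List Bool}
    (hw : w ∈ Pat b u J) (I : Finset ℕ) :
    ∑ x ∈ I ×ˢ Pat b u J, Phi L (dec n w) x.1 x.2 ≤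
      I.card * (b.choose u : ℝ) ^ J + (b * J) * ((b * J) * (2 ^ b * (1 + b * J * 2 ^ b))) * (A ^ J * (b.choose u : ℝ) ^ J) := by
  classical
  obtain ⟨hcard, hpat⟩ := hE b u J hb hu
  set P : Finset ℕ := (pos n w).toFinset with hP
  have hPc : P.card ≤ b * J := by
    rw [hP]
    refine (List.toFinset_card_le _).trans ?_
    rw [pos_length, (hpat w hw).1]
  have hNpos : 0 < b.choose u := Nat.choose_pos hu
  have hN1 : (1 : ℝ) ≤ (b.choose u : ℝ) := by exact_mod_cast hNpos
  rw [← Finset.sum_filter_add_sum_filter_not (I ×ˢ Pat b u J) (fun x => ∃ p ∈ pos x.1 x.2, (dec n w p).isSome)]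
  have h1 : ∑ x ∈ (I ×ˢ Pat b u J).filter (fun x => ¬ ∃ p ∈ pos x.1 x.2, (dec n w p).isSome), Phi L (dec n w) x.1 x.2 ≤
      I.card * (b.choose u : ℝ) ^ J := by
    have h2 : ∑ x ∈ (I ×ˢ Pat b u J).filter (fun x => ¬ ∃ p ∈ pos x.1 x.2, (dec n w p).isSome),
        Phi L (dec n w) x.1 x.2 = ∑ x ∈ (I ×ˢ Pat b u J).filter (fun x => ¬ ∃ p ∈ pos x.1 x.2, (dec n w p).isSome), (1 : ℝ) := by
      apply Finset.sum_congr rfl
      intro x hx
      rw [Finset.mem_filter] at hx
      apply Phi_one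
      intro p hp hs
      exact hx.2 ⟨p, hp, hs⟩
    rw [h2, Finset.sum_const, nsmul_eq_mul, mul_one]
    have h3 : ((I ×ˢ Pat b u J).filter (fun x => ¬ ∃ p ∈ pos x.1 x.2, (dec n w p).isSome)).card ≤
        I.card * (b.choose u) ^ J := by
      refine (Finset.card_filter_le _ _).trans ?_
      rw [Finset.card_product, hcard]
    exact_mod_cast h3
  have h2 := hC L hL (dec n w) P (fun p hp => by
    rw [hP, List.mem_toFinset]
    exact dec_mem w n p hp) I (Pat b u J) (b * J) (fun w hw => (hpat w hw).1)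
  have h3 : ∀ i ∈ Finset.range (b * J), L ^ (b * J - i) *
      (((I ×ˢ (Pat b u J).image (fun w => w.take i)).filter (fun x => val x.1 x.2 ∈ P)).card : ℝ) ≤
      ((b * J) * (2 ^ b * (1 + b * J * 2 ^ b))) * (A ^ J * (b.choose u : ℝ) ^ J) := by
    intro i hi
    rw [Finset.mem_range] at hi
    set S' := (Pat b u J).image (fun w => w.take i) with hS'
    have hS'c := card_pre hE hb hu hi.le (J := J)
    rw [← hS'] at hS'c
    have hmax : max 1 ((2 : ℝ) ^ b / 3 ^ u) ≤ A := max_le hA1 hA2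
    set q := i / b with hq
    have hqJ : q ≤ J := by
      rw [hq]
      exact Nat.div_le_of_le_mul hi.le
    -- count
    have hc1 : (((I ×ˢ S').filter (fun x => val x.1 x.2 ∈ P)).card : ℝ) ≤
        ∑ v ∈ S', ∑ z ∈ P, ((I.filter (fun n => val n v = z)).card : ℝ) := by
      have hsub : (I ×ˢ S').filter (fun x => val x.1 x.2 ∈ P) ⊆
          S'.biUnion (fun v => P.biUnion (fun z => (I.filter (fun n => val n v = z)).image (fun n => (n, v)))) := by
        intro x hx
        rw [Finset.mem_filter, Finset.mem_product] at hx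
        rw [Finset.mem_biUnion]
        refine ⟨x.2, hx.1.2, ?_⟩
        rw [Finset.mem_biUnion]
        refine ⟨val x.1 x.2, hx.2, ?_⟩
        rw [Finset.mem_image]
        exact ⟨x.1, Finset.mem_filter.2 ⟨hx.1.1, rfl⟩, rfl⟩
      have h4 : ((I ×ˢ S').filter (fun x => val x.1 x.2 ∈ P)).card ≤
          ∑ v ∈ S', ∑ z ∈ P, (I.filter (fun n => val n v = z)).card := by
        refine (Finset.card_le_card hsub).trans (Finset.card_biUnion_le.trans (Finset.sum_le_sum fun v _ => ?_))
        refine Finset.card_biUnion_le.trans (Finset.sum_le_sum fun z _ => Finset.card_image_le)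
      exact_mod_cast h4
    have hc2 : ∑ v ∈ S', ∑ z ∈ P, ((I.filter (fun n => val n v = z)).card : ℝ) ≤
        (((b.choose u : ℝ) ^ q * 2 ^ b)) * ((b * J) * ((1 + b * J * 2 ^ b) * A ^ q)) := by
      have h5 : ∀ v ∈ S', ∑ z ∈ P, ((I.filter (fun n => val n v = z)).card : ℝ) ≤
          (b * J) * ((1 + b * J * 2 ^ b) * A ^ q) := by
        intro v hv
        have h6 : ∀ z ∈ P, ((I.filter (fun n => val n v = z)).card : ℝ) ≤ (1 + b * J * 2 ^ b) * A ^ q := by
          intro z _
          refine (card_fib hD hE hb hu hi.le hv z I).trans ?_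
          rw [← hq]
          gcongr
        have h7 := Finset.sum_le_card_nsmul _ _ _ h6
        rw [nsmul_eq_mul] at h7
        refine h7.trans (mul_le_mul_of_nonneg_right ?_ (by positivity))
        exact_mod_cast hPc
      have h8 := Finset.sum_le_card_nsmul _ _ _ h5
      rw [nsmul_eq_mul] at h8
      refine h8.trans (mul_le_mul_of_nonneg_right ?_ (by positivity))
      exact_mod_cast hS'c
    have hLpos : (0 : ℝ) < L := by linarith
    have hL1 : L ^ (b * J - i) ≤ (L ^ b) ^ (J - q) := by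
      rw [← pow_mul]
      apply pow_le_pow_right₀ (by linarith)
      rw [Nat.mul_sub]
      have : b * q ≤ i := by rw [hq]; exact Nat.mul_div_le i b
      omega
    have hL2 : (L ^ b) ^ (J - q) ≤ (A * (b.choose u)) ^ (J - q) := pow_le_pow_left₀ (by positivity) hA3 _
    have hA0 : 0 ≤ A := by linarith
    calc L ^ (b * J - i) * (((I ×ˢ S').filter (fun x => val x.1 x.2 ∈ P)).card : ℝ)
        ≤ (A * (b.choose u)) ^ (J - q) *
          ((((b.choose u : ℝ) ^ q * 2 ^ b)) * ((b * J) * ((1 + b * J * 2 ^ b) * A ^ q))) :=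
          mul_le_mul (hL1.trans hL2) (hc1.trans hc2) (by positivity) (by positivity)
      _ = ((b * J) * (2 ^ b * (1 + b * J * 2 ^ b))) * ((A ^ (J - q) * A ^ q) * ((b.choose u : ℝ) ^ (J - q) * (b.choose u : ℝ) ^ q)) := by
          rw [mul_pow]
          ring
      _ = _ := by
          rw [← pow_add, ← pow_add, Nat.sub_add_cancel hqJ]
  have h4 := Finset.sum_le_card_nsmul _ _ _ h3
  rw [Finset.card_range, nsmul_eq_mul] at h4
  push_cast at h4
  have h5 : ((b : ℝ) * J) * (((b * J) * (2 ^ b * (1 + b * J * 2 ^ b))) * (A ^ J * (b.choose u : ℝ) ^ J)) =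
      (b * J) * ((b * J) * (2 ^ b * (1 + b * J * 2 ^ b))) * (A ^ J * (b.choose u : ℝ) ^ J) := by ring
  rw [h5] at h4
  have h6 := h2.trans h4
  rw [add_comm]
  exact add_le_add h1 h6

end Pool.Agent.N909.CL
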