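import Mathlib
import Pool.Agent.N909.CL.Cnt

set_option autoImplicit false
set_option linter.unusedSectionVars false

/-! # Random Collatz maps, lower bounds: moments -/

open MeasureTheory Filter Set
open scoped ENNReal Topology

namespace Pool.Agent.N909.CL

open Pool.Agent.R528.RM Pool.Agent.N909.CM

/-- realized decisions -/
lemma W_path {Ω : Type} {m0 : MeasurableSpace Ω} {μ : Measure Ω} {ℱ : Filtration ℕ m0} {B : ℕ → Set Ω} {ω : Ω} :
    ∀ (w : List Bool) (n : ℕ), W μ ℱ B n w ω ≠ 0 → ∀ i ≤ w.length, (T B ω)^[i] n = val n (w.take i)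
  | [], n, _, i, hi => by
    simp only [List.length_nil, Nat.le_zero] at hi
    subst hi
    simp [val]
  | d :: w, n, h, i, hi => by
    simp only [W] at h
    have h1 : y μ ℱ B d n ω ≠ 0 := left_ne_zero_of_mul h
    have h2 : W μ ℱ B (stp d n) w ω ≠ 0 := right_ne_zero_of_mul h
    rcases i with _ | i
    · simp [val]
    · have h3 : T B ω n = stp d n := by
        unfold y at h1
        unfold T stp
        by_cases hd : d = true
        · rw [if_pos hd] at h1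
          by_cases hω : ω ∈ B n
          · rw [if_pos hω, if_pos hd]
          · rw [if_neg hω, zero_div] at h1
            exact absurd rfl h1
        · rw [if_neg hd] at h1
          by_cases hω : ω ∈ B n
          · rw [if_pos hω, zero_div] at h1
            exact absurd rfl h1
          · rw [if_neg hω, if_neg hd]
      rw [Function.iterate_succ_apply, h3, List.take_succ_cons]
      simp only [val]
      exact W_path w _ h2 i (by simpa using hi)

lemma pos_get : ∀ (w : List Bool) (n i : ℕ) (hi : i < w.length), (pos n w)[i]'(by rw [pos_length]; exact hi) = val n (w.take i)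
  | [], n, i, hi => by simp at hi
  | d :: w, n, i, hi => by
    rcases i with _ | i
    · simp [pos, val]
    · simp only [pos, List.getElem_cons_succ, List.take_succ_cons, val]
      exact pos_get w _ i (by simpa using hi)

/-- a realized path with different positions makes a long trajectory -/
lemma orb_ge {Ω : Type} {m0 : MeasurableSpace Ω} {μ : Measure Ω} {ℱ : Filtration ℕ m0} {B : ℕ → Set Ω} {ω : Ω}
    {w : List Bool} {n : ℕ} (h : W μ ℱ B n w ω ≠ 0) (hnd : (pos n w).Nodup) (hfin : (orb (T B ω) n).Finite) :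
    w.length ≤ (orb (T B ω) n).ncard ∧ val n w ∈ orb (T B ω) n := by
  classical
  have h1 := W_path w n h
  constructor
  · have h2 : (((pos n w).toFinset : Finset ℕ) : Set ℕ) ⊆ orb (T B ω) n := by
      intro p hp
      simp only [List.coe_toFinset, mem_ofPred_eq] at hp
      obtain ⟨i, hi, hp⟩ := List.getElem_of_mem hp
      have hi' : i < w.length := by rwa [pos_length] at hi
      rw [pos_get w n i hi'] at hp
      exact ⟨i, by rw [← hp]; exact h1 i hi'.le⟩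
    have h3 := Set.ncard_le_ncard h2 hfin
    rw [Set.ncard_coe_finset, List.toFinset_card_of_nodup hnd, pos_length] at h3
    exact h3
  · refine ⟨w.length, ?_⟩
    have := h1 w.length le_rfl
    rw [List.take_length] at this
    exact this

/-- the second moment of the weighted number of realized paths -/
theorem second (hA : StmA) (hB' : StmB) (hC : StmC) (hD : StmD) (hE : StmE)
    {Ω : Type} {m0 : MeasurableSpace Ω} (μ : Measure Ω) [IsProbabilityMeasure μ]
    (ℱ : Filtration ℕ m0) (B : ℕ → Set Ω) (hB : ∀ n, MeasurableSet[ℱ n] (B n)) {K : ℕ} {η : ℝ} (hη : 0 < η)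
    (hη2 : η < 1 / 2) (hd : ∀ n, K ≤ n → ∀ᵐ ω ∂μ, |dens μ ℱ B n ω - 1 / 2| ≤ η)
    {b u J : ℕ} (hb : 1 ≤ b) (hu : u ≤ b) {A : ℝ}
    (hA1 : 1 ≤ A) (hA2 : (2 : ℝ) ^ b / 3 ^ u ≤ A) (hA3 : (1 / (1 / 2 - η)) ^ b ≤ A * (b.choose u)) (I : Finset ℕ)
    (hpos : ∀ n ∈ I, ∀ w ∈ Pat b u J, (∀ p ∈ pos n w, K < p) ∧ (pos n w).Nodup) :
    Integrable (fun ω => ∑ x ∈ I ×ˢ Pat b u J, W μ ℱ B x.1 x.2 ω) μ ∧
    Integrable (fun ω => (∑ x ∈ I ×ˢ Pat b u J, W μ ℱ B x.1 x.2 ω) ^ 2) μ ∧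
    ∫ ω, ∑ x ∈ I ×ˢ Pat b u J, W μ ℱ B x.1 x.2 ω ∂μ = I.card * (b.choose u : ℝ) ^ J ∧
    ∫ ω, (∑ x ∈ I ×ˢ Pat b u J, W μ ℱ B x.1 x.2 ω) ^ 2 ∂μ ≤
      (I.card * (b.choose u : ℝ) ^ J) * (I.card * (b.choose u : ℝ) ^ J +
        (b * J) * ((b * J) * (2 ^ b * (1 + b * J * 2 ^ b))) * (A ^ J * (b.choose u : ℝ) ^ J)) := by
  classical
  have hL : (2 : ℝ) ≤ 1 / (1 / 2 - η) := by
    rw [le_div_iff₀ (by linarith)]
    linarith
  have hcard := (hE b u J hb hu).1
  have key : ∀ x ∈ I ×ˢ Pat b u J, (Integrable (fun ω => W μ ℱ B x.1 x.2 ω) μ ∧ ∫ ω, W μ ℱ B x.1 x.2 ω ∂μ = 1) ∧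
      ∀ x' ∈ I ×ˢ Pat b u J, Integrable (fun ω => W μ ℱ B x.1 x.2 ω * W μ ℱ B x'.1 x'.2 ω) μ ∧
        ∫ ω, W μ ℱ B x.1 x.2 ω * W μ ℱ B x'.1 x'.2 ω ∂μ ≤ Phi (1 / (1 / 2 - η)) (dec x.1 x.2) x'.1 x'.2 := by
    intro x hx
    rw [Finset.mem_product] at hx
    obtain ⟨h1, h2⟩ := hpos x.1 hx.1 x.2 hx.2
    obtain ⟨h3, h4⟩ := hB' μ ℱ B hB K η hη hη2 hd x.1 x.2 h2 h1
    refine ⟨h3, fun x' hx' => ?_⟩
    rw [Finset.mem_product] at hx'
    obtain ⟨h5, h6⟩ := hpos x'.1 hx'.1 x'.2 hx'.2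
    exact h4 x'.1 x'.2 h6 h5
  have hsq : ∀ ω, (∑ x ∈ I ×ˢ Pat b u J, W μ ℱ B x.1 x.2 ω) ^ 2 =
      ∑ x ∈ I ×ˢ Pat b u J, ∑ x' ∈ I ×ˢ Pat b u J, W μ ℱ B x.1 x.2 ω * W μ ℱ B x'.1 x'.2 ω := by
    intro ω
    rw [sq, Finset.sum_mul_sum]
  refine ⟨integrable_finsetSum _ fun x hx => (key x hx).1.1, ?_, ?_, ?_⟩
  · simp only [hsq]
    exact integrable_finsetSum _ fun x hx => integrable_finsetSum _ fun x' hx' => ((key x hx).2 x' hx').1
  · rw [integral_finsetSum _ (fun x hx => (key x hx).1.1), Finset.sum_congr rfl (fun x hx => (key x hx).1.2),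
      Finset.sum_const, Finset.card_product, hcard, nsmul_eq_mul, mul_one]
    push_cast
    ring
  · simp only [hsq]
    rw [integral_finsetSum _ (fun x hx => integrable_finsetSum _ fun x' hx' => ((key x hx).2 x' hx').1)]
    have h1 : ∀ x ∈ I ×ˢ Pat b u J, ∫ ω, ∑ x' ∈ I ×ˢ Pat b u J, W μ ℱ B x.1 x.2 ω * W μ ℱ B x'.1 x'.2 ω ∂μ ≤
        I.card * (b.choose u : ℝ) ^ J +
        (b * J) * ((b * J) * (2 ^ b * (1 + b * J * 2 ^ b))) * (A ^ J * (b.choose u : ℝ) ^ J) := by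
      intro x hx
      rw [integral_finsetSum _ (fun x' hx' => ((key x hx).2 x' hx').1)]
      refine (Finset.sum_le_sum fun x' hx' => ((key x hx).2 x' hx').2).trans ?_
      exact sum_Phi hC hD hE hb hu hL hA1 hA2 hA3 (Finset.mem_product.1 hx).2 I
    have h2 := Finset.sum_le_card_nsmul _ _ _ h1
    rw [nsmul_eq_mul, Finset.card_product, hcard] at h2
    push_cast at h2
    exact h2

end Pool.Agent.N909.CL
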