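import Mathlib
import Pool.Agent.N909.CL.Mom

set_option autoImplicit false
set_option linter.unusedSectionVars false

/-! # Random Collatz maps, lower bounds: paths at all dyadic scales -/

open MeasureTheory Filter Set
open scoped ENNReal Topology

namespace Pool.Agent.N909.CL

open Pool.Agent.R528.RM Pool.Agent.N909.CM

/-- the number of blocks -/
noncomputable def Jn (δ A : ℝ) (j : ℕ) : ℕ := ⌊(1 - δ) * (j * Real.log 2) / Real.log A⌋₊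

/-- the statements which are used -/
structure AllS : Prop where
  A : StmA
  B : StmB
  C : StmC
  D : StmD
  E : StmE
  F1 : StmF1
  F2 : StmF2
  G : StmG

/-- **paths at all dyadic scales** -/
theorem paths (H : AllS) {Ω : Type} {m0 : MeasurableSpace Ω} (μ : Measure Ω) [IsProbabilityMeasure μ]
    (ℱ : Filtration ℕ m0) (B : ℕ → Set Ω) (hB : ∀ n, MeasurableSet[ℱ n] (B n))
    (hd : ∀ η : ℝ, 0 < η → ∀ᶠ n : ℕ in atTop, ∀ᵐ ω ∂μ, |dens μ ℱ B n ω - 1 / 2| ≤ η)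
    {b u : ℕ} (hb : 1 ≤ b) (hu : u ≤ b) (hne : 2 ^ b ≠ 3 ^ u) {A δ : ℝ} (hA1 : 1 < A)
    (hA2 : (2 : ℝ) ^ b / 3 ^ u ≤ A) (hA3 : (2 : ℝ) ^ b < A * (b.choose u)) (hδ : 0 < δ) (hδ1 : δ < 1) :
    ∀ᵐ ω ∂μ, ∀ᶠ j : ℕ in atTop, ∃ n ∈ Finset.Ioc (2 ^ j) (2 * 2 ^ j), ∃ w ∈ Pat b u (Jn δ A j),
      W μ ℱ B n w ω ≠ 0 ∧ (pos n w).Nodup ∧ ((2 ^ j : ℕ) : ℝ) * (3 ^ u / 2 ^ b) ^ (Jn δ A j) / 2 ≤ val n w := by
  classical
  have hlA : 0 < Real.log A := Real.log_pos hA1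
  have hl2 : 0 < Real.log 2 := Real.log_pos (by norm_num)
  -- choice of η
  obtain ⟨η, hη, hη2, hη3⟩ : ∃ η : ℝ, 0 < η ∧ η < 1 / 2 ∧ (1 / (1 / 2 - η)) ^ b ≤ A * (b.choose u) := by
    have h1 : Tendsto (fun η : ℝ => (1 / (1 / 2 - η)) ^ b) (𝓝[>] 0) (𝓝 ((1 / (1 / 2 - 0)) ^ b)) := by
      apply Tendsto.mono_left _ nhdsWithin_le_nhds
      have : ContinuousAt (fun η : ℝ => (1 / (1 / 2 - η)) ^ b) 0 := by
        apply ContinuousAt.pow
        apply ContinuousAt.div continuousAt_const (by fun_prop)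
        norm_num
      exact this
    have e : ((1 : ℝ) / (1 / 2 - 0)) ^ b = 2 ^ b := by norm_num
    rw [e] at h1
    have h2 := h1.eventually (ge_mem_nhds hA3)
    have h3 : ∀ᶠ η : ℝ in 𝓝[>] 0, η < 1 / 2 := nhdsWithin_le_nhds (gt_mem_nhds (by norm_num))
    obtain ⟨η, h4, h5, h6⟩ := (h2.and (h3.and self_mem_nhdsWithin)).exists
    exact ⟨η, h6, h5, h4⟩
  obtain ⟨K, hK⟩ := eventually_atTop.1 (hd η hη)
  set c : ℝ := (1 - δ) / Real.log A with hc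
  have hc0 : 0 < c := by rw [hc]; exact div_pos (by linarith) hlA
  have hF1 := H.F1 b u hb hu hne δ hδ hδ1
  have hF2 := H.F2 b u hb hu hne (δ / 2) c (by linarith) hc0
  have hpow : Tendsto (fun j : ℕ => 2 ^ j) atTop atTop := tendsto_pow_atTop_atTop_of_one_lt (by norm_num)
  have hbig : ∀ᶠ X : ℕ in atTop, (K : ℝ) ≤ (X : ℝ) ^ (δ / 2) :=
    ((tendsto_rpow_atTop (by linarith : 0 < δ / 2)).comp tendsto_natCast_atTop_atTop).eventually_ge_atTop _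
  have hJ : ∀ j : ℕ, (Jn δ A j : ℝ) ≤ (c * Real.log 2) * j := by
    intro j
    have : (Jn δ A j : ℝ) ≤ (1 - δ) * (j * Real.log 2) / Real.log A := Nat.floor_le (by
      have : 0 ≤ 1 - δ := by linarith
      positivity)
    refine this.trans (le_of_eq ?_)
    rw [hc]
    ring
  have hlogX : ∀ j : ℕ, Real.log ((2 ^ j : ℕ) : ℝ) = j * Real.log 2 := by
    intro j
    push_cast
    rw [Real.log_pow]
  have hAJ : ∀ j : ℕ, A ^ (Jn δ A j) ≤ ((2 ^ j : ℕ) : ℝ) ^ (1 - δ) := by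
    intro j
    have hX : (0 : ℝ) < ((2 ^ j : ℕ) : ℝ) := by positivity
    rw [Real.rpow_def_of_pos hX, hlogX, ← Real.rpow_natCast, Real.rpow_def_of_pos (by linarith : 0 < A)]
    apply Real.exp_le_exp.2
    have h1 : (Jn δ A j : ℝ) ≤ (1 - δ) * (j * Real.log 2) / Real.log A := Nat.floor_le (by
      have : 0 ≤ 1 - δ := by linarith
      positivity)
    rw [le_div_iff₀ hlA] at h1
    linarith
  have hRJ : ∀ j : ℕ, ((2 : ℝ) ^ b / 3 ^ u) ^ (Jn δ A j) ≤ ((2 ^ j : ℕ) : ℝ) ^ (1 - δ) := fun j =>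
    (pow_le_pow_left₀ (by positivity) hA2 _).trans (hAJ j)
  -- eventual facts
  have hev : ∀ᶠ j : ℕ in atTop, ∀ n ∈ Finset.Ioc (2 ^ j) (2 * 2 ^ j), ∀ w ∈ Pat b u (Jn δ A j),
      ((∀ p ∈ pos n w, K < p) ∧ (pos n w).Nodup) ∧
        ((2 ^ j : ℕ) : ℝ) * (3 ^ u / 2 ^ b) ^ (Jn δ A j) / 2 ≤ val n w := by
    filter_upwards [hpow.eventually hF1, hpow.eventually hF2, hpow.eventually hbig] with j h1 h2 h3 n hn w hw
    obtain ⟨h4, h5⟩ := h1 (Jn δ A j) (hRJ j) n hn w hw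
    refine ⟨⟨fun p hp => ?_, ?_⟩, h5⟩
    · have := h3.trans_lt (h4 p hp)
      exact_mod_cast this
    · refine h2 (Jn δ A j) ?_ n w hw h4
      rw [hlogX]
      refine (hJ j).trans (le_of_eq ?_)
      ring
  -- the constants
  have hN1 : (1 : ℝ) ≤ (b.choose u : ℝ) := by exact_mod_cast Nat.choose_pos hu
  set D : ℝ := c * Real.log 2 with hDdef
  have hD0 : 0 < D := by rw [hDdef]; positivity
  set ρ : ℝ := (2 : ℝ) ^ (-δ) with hρ
  have hρ0 : 0 < ρ := by rw [hρ]; positivity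
  have hρ1 : ρ < 1 := by
    rw [hρ]
    exact Real.rpow_lt_one_of_one_lt_of_neg (by norm_num) (by linarith)
  set Z : ℕ → Ω → ℝ := fun j ω => ∑ x ∈ Finset.Ioc (2 ^ j) (2 * 2 ^ j) ×ˢ Pat b u (Jn δ A j), W μ ℱ B x.1 x.2 ω with hZ
  set m : ℕ → ℝ := fun j => ((2 ^ j : ℕ) : ℝ) * (b.choose u : ℝ) ^ (Jn δ A j) with hm
  set Cst : ℝ := (b * D) * ((b * D) * (2 ^ b * (1 + b * D * 2 ^ b))) with hCst
  set r : ℕ → ℝ := fun j => Cst * ((j : ℝ) ^ 3 * ρ ^ j) with hr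
  have hsum : Summable r := by
    apply Summable.mul_left
    exact summable_pow_mul_geometric_of_norm_lt_one 3 (by rw [Real.norm_eq_abs, abs_of_pos hρ0]; exact hρ1)
  have hG := H.G μ Z m r (by
    filter_upwards [hev, eventually_ge_atTop 1] with j hj hj1
    have hcard : (Finset.Ioc (2 ^ j) (2 * 2 ^ j)).card = 2 ^ j := by
      rw [Nat.card_Ioc]; omega
    obtain ⟨g1, g2, g3, g4⟩ := second H.A H.B H.C H.D H.E μ ℱ B hB hη hη2 hK (J := Jn δ A j) hb hu hA1.le hA2 hη3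
      (Finset.Ioc (2 ^ j) (2 * 2 ^ j)) (fun n hn w hw => (hj n hn w hw).1)
    rw [hcard] at g3 g4
    have hm0 : 0 < m j := by simp only [hm]; positivity
    refine ⟨hm0, g1, g2, g3, g4.trans ?_⟩
    have hX : (0 : ℝ) < ((2 ^ j : ℕ) : ℝ) := by positivity
    have h1 : A ^ (Jn δ A j) ≤ ((2 ^ j : ℕ) : ℝ) * ρ ^ j := by
      refine (hAJ j).trans (le_of_eq ?_)
      rw [sub_eq_add_neg, Real.rpow_add hX, Real.rpow_one]
      congr 1
      rw [hρ, ← Real.rpow_natCast (2 ^ (-δ)) j, ← Real.rpow_mul (by norm_num)]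
      push_cast
      rw [← Real.rpow_natCast 2 j, ← Real.rpow_mul (by norm_num)]
      congr 1
      ring
    have h2 : ((b : ℝ) * (Jn δ A j : ℕ)) * ((b * (Jn δ A j : ℕ)) * (2 ^ b * (1 + b * (Jn δ A j : ℕ) * 2 ^ b))) ≤ Cst * (j : ℝ) ^ 3 := by
      have hj1' : (1 : ℝ) ≤ j := by exact_mod_cast hj1
      have h3 : (b : ℝ) * (Jn δ A j : ℕ) ≤ (b * D) * j := by
        rw [mul_assoc]
        exact mul_le_mul_of_nonneg_left (hJ j) (by positivity)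
      have h4 : 1 + (b : ℝ) * (Jn δ A j : ℕ) * 2 ^ b ≤ (1 + b * D * 2 ^ b) * j := by
        have : (b : ℝ) * (Jn δ A j : ℕ) * 2 ^ b ≤ (b * D) * j * 2 ^ b := mul_le_mul_of_nonneg_right h3 (by positivity)
        nlinarith
      calc ((b : ℝ) * (Jn δ A j : ℕ)) * ((b * (Jn δ A j : ℕ)) * (2 ^ b * (1 + b * (Jn δ A j : ℕ) * 2 ^ b)))
          ≤ ((b * D) * j) * (((b * D) * j) * (2 ^ b * ((1 + b * D * 2 ^ b) * j))) := by
            gcongr
        _ = Cst * (j : ℝ) ^ 3 := by rw [hCst]; ring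
    have h5 : ((b : ℝ) * (Jn δ A j : ℕ)) * ((b * (Jn δ A j : ℕ)) * (2 ^ b * (1 + b * (Jn δ A j : ℕ) * 2 ^ b))) *
        (A ^ (Jn δ A j) * (b.choose u : ℝ) ^ (Jn δ A j)) ≤ r j * m j := by
      calc _ ≤ (Cst * (j : ℝ) ^ 3) * ((((2 ^ j : ℕ) : ℝ) * ρ ^ j) * (b.choose u : ℝ) ^ (Jn δ A j)) := by
            gcongr
        _ = r j * m j := by
          simp only [hr, hm]
          ring
    have hmj : ((2 ^ j : ℕ) : ℝ) * (b.choose u : ℝ) ^ (Jn δ A j) = m j := rfl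
    rw [hmj]
    calc m j * (m j + ((b : ℝ) * (Jn δ A j : ℕ)) * ((b * (Jn δ A j : ℕ)) * (2 ^ b * (1 + b * (Jn δ A j : ℕ) * 2 ^ b))) *
        (A ^ (Jn δ A j) * (b.choose u : ℝ) ^ (Jn δ A j))) ≤ m j * (m j + r j * m j) := by
          gcongr
      _ = m j ^ 2 * (1 + r j) := by ring) hsum
  filter_upwards [hG] with ω hω
  filter_upwards [hω, hev] with j h1 h2
  obtain ⟨x, hx, h3⟩ := Finset.exists_ne_zero_of_sum_ne_zero h1.ne'
  rw [Finset.mem_product] at hx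
  obtain ⟨h4, h5⟩ := h2 x.1 hx.1 x.2 hx.2
  exact ⟨x.1, hx.1, x.2, hx.2, h3, h4.2, h5⟩

end Pool.Agent.N909.CL
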