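import Mathlib
import Pool.Agent.N909.CL.Lim
import Pool.Agent.N909.CM.Fin

set_option autoImplicit false
set_option linter.unusedSectionVars false

/-! # Random Collatz maps: the longest trajectories and the largest values -/

open MeasureTheory Filter Set
open scoped ENNReal Topology

namespace Pool.Agent.N909.CL

open Pool.Agent.R528.RM Pool.Agent.N909.CM

variable {Ω : Type} {m0 : MeasurableSpace Ω} {μ : Measure Ω} [IsProbabilityMeasure μ]
  {ℱ : Filtration ℕ m0} {B : ℕ → Set Ω}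

/-- uniform convergence implies convergence almost everywhere -/
lemma hd_ae (hd : ∀ η : ℝ, 0 < η → ∀ᶠ n : ℕ in atTop, ∀ᵐ ω ∂μ, |dens μ ℱ B n ω - 1 / 2| ≤ η) :
    ∀ᵐ ω ∂μ, Tendsto (fun n : ℕ => dens μ ℱ B n ω) atTop (𝓝 (1 / 2)) := by
  have h1 : ∀ᵐ ω ∂μ, ∀ m : ℕ, ∀ᶠ n : ℕ in atTop, |dens μ ℱ B n ω - 1 / 2| ≤ 1 / ((m : ℝ) + 1) := by
    rw [ae_all_iff]
    intro m
    obtain ⟨N, hN⟩ := eventually_atTop.1 (hd (1 / ((m : ℝ) + 1)) (by positivity))
    have h2 : ∀ᵐ ω ∂μ, ∀ n : ℕ, N ≤ n → |dens μ ℱ B n ω - 1 / 2| ≤ 1 / ((m : ℝ) + 1) := by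
      rw [ae_all_iff]
      intro n
      by_cases h : N ≤ n
      · filter_upwards [hN n h] with ω hω _
        exact hω
      · exact Eventually.of_forall fun ω h' => absurd h' h
    filter_upwards [h2] with ω hω
    exact eventually_atTop.2 ⟨N, hω⟩
  filter_upwards [h1] with ω hω
  rw [Metric.tendsto_atTop]
  intro ε hε
  obtain ⟨m, hm⟩ := exists_nat_one_div_lt hε
  obtain ⟨N, hN⟩ := eventually_atTop.1 (hω m)
  exact ⟨N, fun n hn => by rw [Real.dist_eq]; exact (hN n hn).trans_lt hm⟩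

/-- `J` is large -/
lemma Jn_ge {A δ : ℝ} (hA1 : 1 < A) (j : ℕ) : (1 - δ) * (j * Real.log 2) / Real.log A - 1 ≤ (Jn δ A j : ℝ) := by
  have := Nat.lt_floor_add_one ((1 - δ) * (j * Real.log 2) / Real.log A)
  unfold Jn
  linarith

/-- **long trajectories** -/
theorem size_lower (H : AllS) (hI : StmI) (hB : ∀ n, MeasurableSet[ℱ n] (B n))
    (hd : ∀ η : ℝ, 0 < η → ∀ᶠ n : ℕ in atTop, ∀ᵐ ω ∂μ, |dens μ ℱ B n ω - 1 / 2| ≤ η)
    {p : ℝ} (hp : 1 / 2 < p) (hp1 : p < 1) (hpe : Real.binEntropy p = p * Real.log 3) {γ : ℝ} (hγ : 0 < γ)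
    (hγ1 : γ < 1 / (Real.log 2 - p * Real.log 3)) :
    ∀ᵐ ω ∂μ, ∀ᶠ j : ℕ in atTop, ∃ n : ℕ, n ∈ Finset.Ioc (2 ^ j) (2 * 2 ^ j) ∧ γ * Real.log n < ((orb (T B ω) n).ncard : ℝ) := by
  obtain ⟨b, u, hu0, hub, h32, h3c, hγ2⟩ := (hI p hp hp1 hpe).2.1 γ hγ hγ1
  have hl2 : 0 < Real.log 2 := Real.log_pos (by norm_num)
  have hR1 : (1 : ℝ) < (2 : ℝ) ^ b / 3 ^ u := by
    rw [one_lt_div (by positivity)]
    exact_mod_cast h32
  have hlR : 0 < Real.log ((2 : ℝ) ^ b / 3 ^ u) := Real.log_pos hR1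
  have hb0 : (0 : ℝ) < b := by exact_mod_cast (by omega : 0 < b)
  -- choose A
  have h1 : Real.log ((2 : ℝ) ^ b / 3 ^ u) < b / γ := by
    rw [lt_div_iff₀ hlR] at hγ2
    rw [lt_div_iff₀ hγ]
    linarith
  obtain ⟨a, ha1, ha2⟩ := exists_between h1
  have ha0 : 0 < a := hlR.trans ha1
  have h2 : γ < b / a := by
    rw [lt_div_iff₀ hγ] at ha2
    rw [lt_div_iff₀ ha0]
    linarith
  obtain ⟨g, hg1, hg2⟩ := exists_between h2
  have hg0 : 0 < g := hγ.trans hg1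
  -- choose δ with b (1-δ) / a = g
  set δ : ℝ := 1 - g * a / b with hδ
  have hδ0 : 0 < δ := by
    rw [lt_div_iff₀ ha0] at hg2
    rw [hδ, sub_pos, div_lt_one hb0]
    exact hg2
  have hδ1 : δ < 1 := by
    rw [hδ]
    have : 0 < g * a / b := by positivity
    linarith
  set A : ℝ := Real.exp a with hA
  have hA1 : 1 < A := Real.one_lt_exp_iff.2 ha0
  have hlA : Real.log A = a := Real.log_exp a
  have hRA : (2 : ℝ) ^ b / 3 ^ u < A := by
    rw [hA, ← Real.log_lt_iff_lt_exp (by positivity)]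
    exact ha1
  have hA3 : (2 : ℝ) ^ b < A * (b.choose u) := by
    rw [div_lt_iff₀ (by positivity)] at hRA
    refine hRA.trans_le (mul_le_mul_of_nonneg_left ?_ (by linarith))
    exact_mod_cast h3c
  have hne : 2 ^ b ≠ 3 ^ u := h32.ne'
  have hfin := all_finite (μ := μ) (ℱ := ℱ) hB (hd_ae hd)
  filter_upwards [paths H μ ℱ B hB hd (by omega : 1 ≤ b) hub.le hne hA1 hRA.le hA3 hδ0 hδ1, hfin] with ω hω hf
  have hlim : Tendsto (fun j : ℕ => ((g - γ) * Real.log 2) * (j : ℝ)) atTop atTop :=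
    tendsto_natCast_atTop_atTop.const_mul_atTop (mul_pos (by linarith) hl2)
  filter_upwards [hω, hlim.eventually_gt_atTop (b + γ * Real.log 2)] with j hj hj2
  obtain ⟨n, hn, w, hw, h3, h4, -⟩ := hj
  refine ⟨n, hn, ?_⟩
  have h5 := (orb_ge h3 h4 (hf n)).1
  have hlen := ((H.E b u (Jn δ A j) (by omega) hub.le).2 w hw).1
  rw [hlen] at h5
  have h6 : (b : ℝ) * (Jn δ A j : ℕ) ≤ ((orb (T B ω) n).ncard : ℝ) := by exact_mod_cast h5
  have h7 := Jn_ge (δ := δ) hA1 j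
  rw [hlA] at h7
  have h8 : (b : ℝ) * ((1 - δ) * (j * Real.log 2) / a - 1) = g * (j * Real.log 2) - b := by
    rw [hδ]
    field_simp
    ring
  have h9 : g * (j * Real.log 2) - b ≤ (b : ℝ) * (Jn δ A j : ℕ) := by
    rw [← h8]
    exact mul_le_mul_of_nonneg_left h7 hb0.le
  rw [Finset.mem_Ioc] at hn
  have hn0 : (0 : ℝ) < n := by
    have : 0 < 2 ^ j := by positivity
    exact_mod_cast (by omega : 0 < n)
  have h10 : Real.log n ≤ (j : ℝ) * Real.log 2 + Real.log 2 := by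
    have h11 : (n : ℝ) ≤ 2 * 2 ^ j := by exact_mod_cast hn.2
    calc Real.log n ≤ Real.log (2 * 2 ^ j) := Real.log_le_log hn0 h11
      _ = (j : ℝ) * Real.log 2 + Real.log 2 := by
        rw [Real.log_mul (by norm_num) (by positivity), Real.log_pow]
        ring
  have h12 : γ * Real.log n ≤ γ * ((j : ℝ) * Real.log 2 + Real.log 2) := mul_le_mul_of_nonneg_left h10 hγ.le
  have h13 : γ * ((j : ℝ) * Real.log 2 + Real.log 2) < g * (j * Real.log 2) - b := by
    have : (g - γ) * Real.log 2 * j = g * (j * Real.log 2) - γ * (j * Real.log 2) := by ring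
    rw [this] at hj2
    linarith
  linarith

/-- **large values** -/
theorem val_lower (H : AllS) (hJ : StmJ) (hB : ∀ n, MeasurableSet[ℱ n] (B n))
    (hd : ∀ η : ℝ, 0 < η → ∀ᶠ n : ℕ in atTop, ∀ᵐ ω ∂μ, |dens μ ℱ B n ω - 1 / 2| ≤ η) {ε : ℝ} (hε : 0 < ε)
    (hε1 : ε < 1) :
    ∀ᵐ ω ∂μ, ∀ᶠ j : ℕ in atTop, ∃ n : ℕ, n ∈ Finset.Ioc (2 ^ j) (2 * 2 ^ j) ∧ ∃ x ∈ orb (T B ω) n, (n : ℝ) ^ (2 - ε) < x := by
  obtain ⟨b, u, hu0, hub, h23, hJ1⟩ := hJ (ε / 2) (by linarith)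
  have hl2 : 0 < Real.log 2 := Real.log_pos (by norm_num)
  have hb0 : (0 : ℝ) < b := by exact_mod_cast (by omega : 0 < b)
  set κ : ℝ := Real.log ((3 : ℝ) ^ u / 2 ^ b) with hκ
  have hR : (1 : ℝ) < (3 : ℝ) ^ u / 2 ^ b := by
    rw [one_lt_div (by positivity)]
    exact_mod_cast h23
  have hκ0 : 0 < κ := Real.log_pos hR
  have hNpos : 0 < b.choose u := Nat.choose_pos hub.le
  have hN0 : (0 : ℝ) < (b.choose u : ℝ) := by exact_mod_cast hNpos
  set l : ℝ := Real.log ((2 : ℝ) ^ b / b.choose u) with hl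
  have hl0 : 0 < l := by
    rw [hl]
    apply Real.log_pos
    rw [one_lt_div hN0]
    have : b.choose u < 2 ^ b := by
      have h1 := Nat.sum_range_choose b
      have h2 : b.choose u + b.choose 0 ≤ ∑ m ∈ Finset.range (b + 1), b.choose m := by
        have h3 : ({u, 0} : Finset ℕ) ⊆ Finset.range (b + 1) := by
          intro x hx
          simp only [Finset.mem_insert, Finset.mem_singleton] at hx
          rw [Finset.mem_range]
          omega
        have h4 := Finset.sum_le_sum_of_subset (f := fun m => b.choose m) h3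
        rwa [Finset.sum_pair (by omega)] at h4
      rw [h1, Nat.choose_zero_right] at h2
      omega
    exact_mod_cast this
  have hs : 1 - ε / 2 < κ / l := hJ1
  have hs0 : 0 < 1 - ε / 2 := by linarith
  have h1 : l < κ / (1 - ε / 2) := by
    rw [lt_div_iff₀ hl0] at hs
    rw [lt_div_iff₀ hs0]
    linarith
  obtain ⟨a, ha1, ha2⟩ := exists_between h1
  have ha0 : 0 < a := hl0.trans ha1
  have h2 : 1 - ε / 2 < κ / a := by
    rw [lt_div_iff₀ hs0] at ha2
    rw [lt_div_iff₀ ha0]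
    linarith
  set δ : ℝ := 1 - (1 - ε / 2) * a / κ with hδ
  have hδ0 : 0 < δ := by
    rw [lt_div_iff₀ ha0] at h2
    rw [hδ, sub_pos, div_lt_one hκ0]
    exact h2
  have hδ1 : δ < 1 := by
    rw [hδ]
    have : 0 < (1 - ε / 2) * a / κ := by positivity
    linarith
  set A : ℝ := Real.exp a with hA
  have hA1 : 1 < A := Real.one_lt_exp_iff.2 ha0
  have hlA : Real.log A = a := Real.log_exp a
  have hRA : (2 : ℝ) ^ b / b.choose u < A := by
    rw [hA, ← Real.log_lt_iff_lt_exp (by positivity)]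
    exact ha1
  have hA3 : (2 : ℝ) ^ b < A * (b.choose u) := by
    rwa [div_lt_iff₀ hN0] at hRA
  have hA2 : (2 : ℝ) ^ b / 3 ^ u ≤ A := by
    have : (2 : ℝ) ^ b / 3 ^ u ≤ 1 := by
      rw [div_le_one (by positivity)]
      exact_mod_cast h23.le
    linarith
  have hne : 2 ^ b ≠ 3 ^ u := h23.ne
  have hfin := all_finite (μ := μ) (ℱ := ℱ) hB (hd_ae hd)
  filter_upwards [paths H μ ℱ B hB hd (by omega : 1 ≤ b) hub.le hne hA1 hA2 hA3 hδ0 hδ1, hfin] with ω hω hf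
  have hlim : Tendsto (fun j : ℕ => (ε / 2 * Real.log 2) * (j : ℝ)) atTop atTop :=
    tendsto_natCast_atTop_atTop.const_mul_atTop (by positivity)
  filter_upwards [hω, hlim.eventually_gt_atTop (κ + 3 * Real.log 2)] with j hj hj2
  obtain ⟨n, hn, w, hw, h3, h4, h5⟩ := hj
  refine ⟨n, hn, val n w, (orb_ge h3 h4 (hf n)).2, lt_of_lt_of_le ?_ h5⟩
  have h7 := Jn_ge (δ := δ) hA1 j
  rw [hlA] at h7
  have h8 : κ * ((1 - δ) * (j * Real.log 2) / a - 1) = (1 - ε / 2) * (j * Real.log 2) - κ := by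
    rw [hδ]
    field_simp
    ring
  have h9 : (1 - ε / 2) * (j * Real.log 2) - κ ≤ κ * (Jn δ A j : ℕ) := by
    rw [← h8]
    exact mul_le_mul_of_nonneg_left h7 hκ0.le
  rw [Finset.mem_Ioc] at hn
  have hn0 : (0 : ℝ) < n := by
    have : 0 < 2 ^ j := by positivity
    exact_mod_cast (by omega : 0 < n)
  have h10 : Real.log n ≤ (j : ℝ) * Real.log 2 + Real.log 2 := by
    have h11 : (n : ℝ) ≤ 2 * 2 ^ j := by exact_mod_cast hn.2
    calc Real.log n ≤ Real.log (2 * 2 ^ j) := Real.log_le_log hn0 h11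
      _ = (j : ℝ) * Real.log 2 + Real.log 2 := by
        rw [Real.log_mul (by norm_num) (by positivity), Real.log_pow]
        ring
  have e1 : ((2 ^ j : ℕ) : ℝ) * (3 ^ u / 2 ^ b) ^ (Jn δ A j) / 2 =
      Real.exp (j * Real.log 2 + κ * (Jn δ A j : ℕ) - Real.log 2) := by
    have e2 : Real.exp (j * Real.log 2) = ((2 ^ j : ℕ) : ℝ) := by
      rw [← Real.log_pow, Real.exp_log (by positivity)]
      push_cast
      rfl
    have e3 : Real.exp (κ * (Jn δ A j : ℕ)) = ((3 : ℝ) ^ u / 2 ^ b) ^ (Jn δ A j) := by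
      rw [mul_comm, hκ, ← Real.log_pow, Real.exp_log (by positivity)]
    rw [Real.exp_sub, Real.exp_add, Real.exp_log (by norm_num : (0 : ℝ) < 2), e2, e3]
  rw [e1, Real.rpow_def_of_pos hn0]
  apply Real.exp_lt_exp.2
  have h13 : Real.log n * (2 - ε) ≤ ((j : ℝ) * Real.log 2 + Real.log 2) * (2 - ε) :=
    mul_le_mul_of_nonneg_right h10 (by linarith)
  have h14 : ε / 2 * Real.log 2 * j = ε / 2 * (j * Real.log 2) := by ring
  rw [h14] at hj2
  have h15 : 0 < ε * Real.log 2 := by positivity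
  linarith

end Pool.Agent.N909.CL
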