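import Mathlib

set_option autoImplicit false
set_option linter.unusedSectionVars false

/-! # The largest value up to `x` -/

open MeasureTheory Filter Set
open scoped ENNReal Topology

namespace Pool.Agent.N909.CL

theorem max_lim {h M : ℕ → ℝ} {c : ℝ} (hc : 0 < c) (h1 : ∀ x, ∀ n ≤ x, h n ≤ M x) (h2 : ∀ x, ∃ n ≤ x, M x = h n)
    (hu : ∀ γ : ℝ, c < γ → ∀ᶠ n : ℕ in atTop, h n ≤ γ * Real.log n)
    (hl : ∀ γ : ℝ, 0 < γ → γ < c → ∀ᶠ j : ℕ in atTop, ∃ n : ℕ, n ∈ Finset.Ioc (2 ^ j) (2 * 2 ^ j) ∧ γ * Real.log n < h n) :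
    Tendsto (fun x : ℕ => M x / Real.log x) atTop (𝓝 c) := by
  have hlog : Tendsto (fun n : ℕ => Real.log n) atTop atTop := Real.tendsto_log_atTop.comp tendsto_natCast_atTop_atTop
  have hl2 : 0 < Real.log 2 := Real.log_pos (by norm_num)
  rw [tendsto_order]
  constructor
  · intro γ1 hγ1
    obtain ⟨γ', hg1, hg2⟩ := exists_between (max_lt hγ1 hc)
    have hg0 : 0 < γ' := (le_max_right _ _).trans_lt hg1
    have hg1' : γ1 < γ' := (le_max_left _ _).trans_lt hg1
    obtain ⟨j₀, hj₀⟩ := eventually_atTop.1 (hl γ' hg0 hg2)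
    filter_upwards [eventually_ge_atTop (2 ^ (j₀ + 1)),
      hlog.eventually_gt_atTop (2 * γ' * Real.log 2 / (γ' - γ1)), hlog.eventually_gt_atTop 0] with x hx1 hx2 hx3
    have hx0 : x ≠ 0 := by
      have : 0 < 2 ^ (j₀ + 1) := by positivity
      omega
    have hlg : j₀ + 1 ≤ Nat.log 2 x := (Nat.le_log_iff_pow_le (by norm_num) hx0).2 hx1
    obtain ⟨j, hj⟩ : ∃ j, Nat.log 2 x = j + 1 := ⟨Nat.log 2 x - 1, by omega⟩
    have h3 : 2 ^ (j + 1) ≤ x := by rw [← hj]; exact Nat.pow_log_le_self 2 hx0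
    have h4 : x < 2 ^ (j + 2) := by
      have := Nat.lt_pow_succ_log_self (by norm_num : 1 < 2) x
      rwa [hj] at this
    obtain ⟨n, hn, h5⟩ := hj₀ j (by omega)
    rw [Finset.mem_Ioc] at hn
    have hnx : n ≤ x := by
      have : 2 * 2 ^ j = 2 ^ (j + 1) := by rw [pow_succ]; ring
      omega
    have h6 := h1 x n hnx
    rw [lt_div_iff₀ hx3]
    have h7 : Real.log x ≤ (j : ℝ) * Real.log 2 + 2 * Real.log 2 := by
      have h8 : (x : ℝ) ≤ 2 ^ (j + 2) := by exact_mod_cast h4.le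
      have := Real.log_le_log (by exact_mod_cast Nat.pos_of_ne_zero hx0) h8
      rw [Real.log_pow] at this
      push_cast at this
      linarith
    have h9 : (j : ℝ) * Real.log 2 ≤ Real.log n := by
      have h8 : ((2 : ℝ) ^ j) ≤ n := by exact_mod_cast hn.1.le
      have := Real.log_le_log (by positivity) h8
      rwa [Real.log_pow] at this
    rw [div_lt_iff₀ (by linarith)] at hx2
    have h10 : γ' * (Real.log x - 2 * Real.log 2) ≤ γ' * Real.log n := mul_le_mul_of_nonneg_left (by linarith) hg0.le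
    nlinarith
  · intro γ2 hγ2
    obtain ⟨γ', hg1, hg2⟩ := exists_between hγ2
    obtain ⟨n₀, hn₀⟩ := eventually_atTop.1 (hu γ' hg1)
    have hC : ∃ C : ℝ, ∀ n < n₀, h n ≤ C := by
      rcases Nat.eq_zero_or_pos n₀ with h0 | h0
      · exact ⟨0, fun n hn => by omega⟩
      · refine ⟨((Finset.range n₀).sup' ⟨0, Finset.mem_range.2 h0⟩ h), fun n hn => ?_⟩
        exact Finset.le_sup' h (Finset.mem_range.2 hn)
    obtain ⟨C, hC⟩ := hC
    have hg0 : 0 < γ' := hc.trans hg1
    filter_upwards [hlog.eventually_gt_atTop (C / γ2), hlog.eventually_gt_atTop 0, eventually_ge_atTop 1] with x hx1 hx2 hx3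
    obtain ⟨n, hn, h3⟩ := h2 x
    rw [div_lt_iff₀ hx2, h3]
    by_cases hnn : n < n₀
    · refine (hC n hnn).trans_lt ?_
      rw [div_lt_iff₀ (by linarith)] at hx1
      linarith
    · refine (hn₀ n (by omega)).trans_lt ?_
      have h4 : Real.log n ≤ Real.log x := by
        rcases Nat.eq_zero_or_pos n with h0 | h0
        · rw [h0, Nat.cast_zero, Real.log_zero]; exact hx2.le
        · exact Real.log_le_log (by exact_mod_cast h0) (by exact_mod_cast hn)
      nlinarith

end Pool.Agent.N909.CL
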