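import Mathlib

set_option autoImplicit false
set_option exponentiation.threshold 100000

/-! # The constant 41.677 -/

open Real Set

namespace Pool.Agent.N909.CL

lemma ent_rat {n a : ℕ} (ha : 0 < a) (han : a < n) :
    (n : ℝ) * Real.binEntropy ((a : ℝ) / n) = n * Real.log n - a * Real.log a - (n - a : ℕ) * Real.log (n - a : ℕ) := by
  have hn0 : (0 : ℝ) < n := by exact_mod_cast (by omega : 0 < n)
  have ha0 : (0 : ℝ) < a := by exact_mod_cast ha
  have hb0 : (0 : ℝ) < ((n - a : ℕ) : ℝ) := by exact_mod_cast (by omega : 0 < n - a)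
  have e : 1 - (a : ℝ) / n = ((n - a : ℕ) : ℝ) / n := by
    rw [Nat.cast_sub han.le]
    field_simp
  rw [Real.binEntropy, e, Real.log_inv, Real.log_inv, Real.log_div ha0.ne' hn0.ne', Real.log_div hb0.ne' hn0.ne']
  have e2 : (n : ℝ) * ((a : ℝ) / n * -(Real.log a - Real.log n) + ((n - a : ℕ) : ℝ) / n * -(Real.log (n - a : ℕ) - Real.log n)) =
      (a + (n - a : ℕ)) * Real.log n - a * Real.log a - (n - a : ℕ) * Real.log (n - a : ℕ) := by
    field_simp
    ring
  rw [e2, Nat.cast_sub han.le]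
  ring

lemma log_lt_of_pow {x y : ℕ} (hx : 0 < x) (h : x < y) : Real.log x < Real.log y :=
  Real.log_lt_log (by exact_mod_cast hx) (by exact_mod_cast h)

lemma ent_gt {n a : ℕ} (ha : 0 < a) (han : a < n) (h : a ^ a * (n - a) ^ (n - a) * 3 ^ a < n ^ n) :
    (a : ℝ) / n * Real.log 3 < Real.binEntropy ((a : ℝ) / n) := by
  have hn0 : (0 : ℝ) < n := by exact_mod_cast (by omega : 0 < n)
  have h1 := log_lt_of_pow (by
    have : 0 < n - a := by omega
    positivity) h
  have ha0 : (a : ℝ) ≠ 0 := by exact_mod_cast ha.ne'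
  have hb0 : ((n - a : ℕ) : ℝ) ≠ 0 := by exact_mod_cast (by omega : n - a ≠ 0)
  rw [Nat.cast_mul, Nat.cast_mul, Nat.cast_pow, Nat.cast_pow, Nat.cast_pow, Nat.cast_pow,
    Real.log_mul (mul_ne_zero (pow_ne_zero _ ha0) (pow_ne_zero _ hb0)) (by positivity),
    Real.log_mul (pow_ne_zero _ ha0) (pow_ne_zero _ hb0), Real.log_pow, Real.log_pow, Real.log_pow, Real.log_pow] at h1
  have h2 := ent_rat ha han
  push_cast at h1
  have h3 : (a : ℝ) * Real.log 3 < n * Real.binEntropy ((a : ℝ) / n) := by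
    rw [h2, Nat.cast_sub han.le]
    rw [Nat.cast_sub han.le] at h1
    linarith
  rw [div_mul_eq_mul_div, div_lt_iff₀ hn0]
  linarith

lemma ent_lt {n a : ℕ} (ha : 0 < a) (han : a < n) (h : n ^ n < a ^ a * (n - a) ^ (n - a) * 3 ^ a) :
    Real.binEntropy ((a : ℝ) / n) < (a : ℝ) / n * Real.log 3 := by
  have hn0 : (0 : ℝ) < n := by exact_mod_cast (by omega : 0 < n)
  have h1 := log_lt_of_pow (by
    have : 0 < n := by omega
    positivity) h
  have ha0 : (a : ℝ) ≠ 0 := by exact_mod_cast ha.ne'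
  have hb0 : ((n - a : ℕ) : ℝ) ≠ 0 := by exact_mod_cast (by omega : n - a ≠ 0)
  rw [Nat.cast_mul, Nat.cast_mul, Nat.cast_pow, Nat.cast_pow, Nat.cast_pow, Nat.cast_pow,
    Real.log_mul (mul_ne_zero (pow_ne_zero _ ha0) (pow_ne_zero _ hb0)) (by positivity),
    Real.log_mul (pow_ne_zero _ ha0) (pow_ne_zero _ hb0), Real.log_pow, Real.log_pow, Real.log_pow, Real.log_pow] at h1
  have h2 := ent_rat ha han
  push_cast at h1
  have h3 : n * Real.binEntropy ((a : ℝ) / n) < (a : ℝ) * Real.log 3 := by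
    rw [h2, Nat.cast_sub han.le]
    rw [Nat.cast_sub han.le] at h1
    linarith
  rw [div_mul_eq_mul_div, lt_div_iff₀ hn0]
  linarith

lemma c1 : 12181 ^ 12181 * (20000 - 12181) ^ (20000 - 12181) * 3 ^ 12181 < (20000 : ℕ) ^ 20000 := by decide +kernel

lemma c2 : (10000 : ℕ) ^ 10000 < 6091 ^ 6091 * (10000 - 6091) ^ (10000 - 6091) * 3 ^ 6091 := by decide +kernel

lemma c3 : (3 : ℕ) ^ 971 < 2 ^ 1539 := by decide +kernel
lemma c4 : (2 : ℕ) ^ 1054 < 3 ^ 665 := by decide +kernel

lemma log_pow_lt {x y k m : ℕ} (hx : 0 < x) (h : x ^ k < y ^ m) : (k : ℝ) * Real.log x < m * Real.log y := by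
  have h1 := log_lt_of_pow (by positivity) h
  rwa [Nat.cast_pow, Nat.cast_pow, Real.log_pow, Real.log_pow] at h1

lemma l3_lt : Real.log 3 < 1539 / 971 * Real.log 2 := by
  have h1 := log_pow_lt (by norm_num) c3
  simp only [Nat.cast_ofNat] at h1
  linarith

lemma l3_gt : 1054 / 665 * Real.log 2 < Real.log 3 := by
  have h1 := log_pow_lt (by norm_num) c4
  simp only [Nat.cast_ofNat] at h1
  linarith

/-- **the constant** -/
theorem const : ∃ p : ℝ, 1 / 2 < p ∧ p < 1 ∧ Real.binEntropy p = p * Real.log 3 ∧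
    41.6 < 1 / (Real.log 2 - p * Real.log 3) ∧ 1 / (Real.log 2 - p * Real.log 3) < 41.7 := by
  have h1 : (12181 / 20000 : ℝ) * Real.log 3 < Real.binEntropy (12181 / 20000) := by
    have := ent_gt (n := 20000) (a := 12181) (by norm_num) (by norm_num) c1
    exact_mod_cast this
  have h2 : Real.binEntropy (6091 / 10000) < (6091 / 10000 : ℝ) * Real.log 3 := by
    have := ent_lt (n := 10000) (a := 6091) (by norm_num) (by norm_num) c2
    exact_mod_cast this
  have hcont : ContinuousOn (fun x : ℝ => Real.binEntropy x - x * Real.log 3) (Icc (12181 / 20000) (6091 / 10000)) := by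
    apply Continuous.continuousOn
    exact Real.binEntropy_continuous.sub (continuous_id.mul continuous_const)
  have h3 := intermediate_value_Icc' (by norm_num : (12181 / 20000 : ℝ) ≤ 6091 / 10000) hcont
  have h4 : (0 : ℝ) ∈ Icc (Real.binEntropy (6091 / 10000) - 6091 / 10000 * Real.log 3)
      (Real.binEntropy (12181 / 20000) - 12181 / 20000 * Real.log 3) := ⟨by linarith, by linarith⟩
  obtain ⟨p, ⟨hp1, hp2⟩, hp3⟩ := h3 h4
  have e1 := Real.log_two_gt_d9
  have e2 := Real.log_two_lt_d9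
  have e3 := l3_lt
  have e4 := l3_gt
  have hl3 : 0 < Real.log 3 := Real.log_pos (by norm_num)
  have u1 : p * Real.log 3 ≤ 6091 / 10000 * Real.log 3 := mul_le_mul_of_nonneg_right hp2 hl3.le
  have u2 : 12181 / 20000 * Real.log 3 ≤ p * Real.log 3 := mul_le_mul_of_nonneg_right hp1 hl3.le
  have hpos : 0 < Real.log 2 - p * Real.log 3 := by linarith
  refine ⟨p, by linarith, by linarith, by simpa [sub_eq_zero] using hp3, ?_, ?_⟩
  · rw [lt_div_iff₀ hpos]
    linarith
  · rw [div_lt_iff₀ hpos]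
    linarith

end Pool.Agent.N909.CL
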