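import Mathlib
import Pool.Agent.N909.CL.Main
import Pool.Agent.N909.CL.Max
import Pool.Agent.N909.CL.Num
import Pool.Agent.N196.CL.A
import Pool.Agent.N433.CL.B
import Pool.Agent.N950.CL.C
import Pool.Agent.N645.CL.D
import Pool.Agent.N868.CL.E
import Pool.Agent.N499.CL.F1
import Pool.Agent.N18.CL.F2
import Pool.Agent.N434.CL.G
import Pool.Agent.N694.CL.H
import Pool.Agent.N624.CL.I
import Pool.Agent.N744.CL.J

set_option autoImplicit false
set_option linter.unusedSectionVars false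

/-! # Random Collatz maps: the sharp constants -/

open MeasureTheory Filter Set
open scoped ENNReal Topology

namespace Pool.Agent.N909.CL

open Pool.Agent.R528.RM Pool.Agent.N909.CM

theorem allS : AllS where
  A := Pool.Agent.N196.CL.t
  B := Pool.Agent.N433.CL.B.t Pool.Agent.N196.CL.t
  C := Pool.Agent.N950.CL.t
  D := Pool.Agent.N645.CL.t
  E := Pool.Agent.N868.CL.E.t
  F1 := Pool.Agent.N499.CL.t Pool.Agent.N868.CL.E.t
  F2 := Pool.Agent.N18.CL.F2.t Pool.Agent.N868.CL.E.t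
  G := Pool.Agent.N434.CL.G.t

theorem sI : StmI := Pool.Agent.N624.CL.I.t Pool.Agent.N694.CL.H.t

theorem sJ : StmJ := Pool.Agent.N744.CL.J.t Pool.Agent.N694.CL.H.t

variable {Ω : Type} {m0 : MeasurableSpace Ω} {μ : Measure Ω} [IsProbabilityMeasure μ]
  {ℱ : Filtration ℕ m0} {B : ℕ → Set Ω}

/-- **all constants below and above the critical one** -/
theorem size_all (hB : ∀ n, MeasurableSet[ℱ n] (B n))
    (hd : ∀ η : ℝ, 0 < η → ∀ᶠ n : ℕ in atTop, ∀ᵐ ω ∂μ, |dens μ ℱ B n ω - 1 / 2| ≤ η)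
    {p : ℝ} (hp : 1 / 2 < p) (hp1 : p < 1) (hpe : Real.binEntropy p = p * Real.log 3) :
    ∀ᵐ ω ∂μ, (∀ n, (orb (T B ω) n).Finite) ∧
      (∀ γ : ℝ, 1 / (Real.log 2 - p * Real.log 3) < γ → ∀ᶠ n : ℕ in atTop, ((orb (T B ω) n).ncard : ℝ) ≤ γ * Real.log n) ∧
      (∀ γ : ℝ, 0 < γ → γ < 1 / (Real.log 2 - p * Real.log 3) → ∀ᶠ j : ℕ in atTop, ∃ n : ℕ,
        n ∈ Finset.Ioc (2 ^ j) (2 * 2 ^ j) ∧ γ * Real.log n < ((orb (T B ω) n).ncard : ℝ)) := by
  obtain ⟨hpos, -, θ, hθ, hθ1, hθe⟩ := sI p hp hp1 hpe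
  set c : ℝ := 1 / (Real.log 2 - p * Real.log 3) with hc
  have hc0 : 0 < c := by rw [hc]; exact one_div_pos.2 hpos
  have h1 : ∀ᵐ ω ∂μ, ∀ m : ℕ, ∀ᶠ n : ℕ in atTop, ((orb (T B ω) n).ncard : ℝ) ≤ (c + 1 / ((m : ℝ) + 1)) * Real.log n :=
    ae_all_iff.2 fun m => size (μ := μ) (ℱ := ℱ) hB (hd_ae hd) hθ hθ1 (by
      rw [hθe]
      have : (0 : ℝ) < 1 / ((m : ℝ) + 1) := by positivity
      linarith)
  have h2 : ∀ᵐ ω ∂μ, ∀ m : ℕ, ∀ᶠ j : ℕ in atTop, ∃ n : ℕ,
        n ∈ Finset.Ioc (2 ^ j) (2 * 2 ^ j) ∧ (c * (1 - 1 / ((m : ℝ) + 2))) * Real.log n < ((orb (T B ω) n).ncard : ℝ) :=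
    ae_all_iff.2 fun m => size_lower allS sI hB hd hp hp1 hpe (by
      have : (1 : ℝ) / ((m : ℝ) + 2) < 1 := by
        rw [div_lt_one (by positivity)]
        have : (0 : ℝ) ≤ m := Nat.cast_nonneg m
        linarith
      have : 0 < 1 - 1 / ((m : ℝ) + 2) := by linarith
      positivity) (by
      rw [← hc]
      have : (0 : ℝ) < 1 / ((m : ℝ) + 2) := by positivity
      nlinarith)
  filter_upwards [all_finite (μ := μ) (ℱ := ℱ) hB (hd_ae hd), h1, h2] with ω g0 g1 g2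
  refine ⟨g0, fun γ hγ => ?_, fun γ hγ0 hγ => ?_⟩
  · obtain ⟨m, hm⟩ := exists_nat_one_div_lt (show 0 < γ - c by linarith)
    filter_upwards [g1 m, eventually_ge_atTop 1] with n hn hn1
    refine hn.trans (mul_le_mul_of_nonneg_right (by linarith) (Real.log_nonneg (by exact_mod_cast hn1)))
  · obtain ⟨m, hm⟩ := exists_nat_one_div_lt (show 0 < 1 - γ / c by
      rw [sub_pos, div_lt_one hc0]; exact hγ)
    filter_upwards [g2 m] with j hj
    obtain ⟨n, hn, h3⟩ := hj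
    refine ⟨n, hn, lt_of_le_of_lt (mul_le_mul_of_nonneg_right ?_ (Real.log_nonneg ?_)) h3⟩
    · have h4 : (1 : ℝ) / ((m : ℝ) + 2) ≤ 1 / ((m : ℝ) + 1) :=
        one_div_le_one_div_of_le (by positivity) (by linarith)
      have h5 : γ / c ≤ 1 - 1 / ((m : ℝ) + 2) := by linarith
      rw [div_le_iff₀ hc0] at h5
      linarith
    · rw [Finset.mem_Ioc] at hn
      have : 0 < 2 ^ j := by positivity
      exact_mod_cast (by omega : 1 ≤ n)

/-- limsup from one-sided estimates -/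
theorem limsup_of {h : ℕ → ℝ} {c : ℝ} (hc : 0 < c) (h0 : ∀ n, 0 ≤ h n)
    (hu : ∀ γ : ℝ, c < γ → ∀ᶠ n : ℕ in atTop, h n ≤ γ * Real.log n)
    (hl : ∀ γ : ℝ, 0 < γ → γ < c → ∀ᶠ j : ℕ in atTop, ∃ n : ℕ, n ∈ Finset.Ioc (2 ^ j) (2 * 2 ^ j) ∧ γ * Real.log n < h n) :
    limsup (fun n : ℕ => h n / Real.log n) atTop = c := by
  have hlog : Tendsto (fun n : ℕ => Real.log n) atTop atTop := Real.tendsto_log_atTop.comp tendsto_natCast_atTop_atTop
  have hu' : ∀ γ : ℝ, c < γ → ∀ᶠ n : ℕ in atTop, h n / Real.log n ≤ γ := by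
    intro γ hγ
    filter_upwards [hu γ hγ, hlog.eventually_gt_atTop 0] with n h1 h2
    rwa [div_le_iff₀ h2]
  have hbelow : IsBoundedUnder (· ≥ ·) atTop (fun n : ℕ => h n / Real.log n) :=
    isBoundedUnder_of_eventually_ge (a := 0) (by
      filter_upwards [hlog.eventually_gt_atTop 0] with n h2
      exact div_nonneg (h0 n) h2.le)
  have habove : IsBoundedUnder (· ≤ ·) atTop (fun n : ℕ => h n / Real.log n) :=
    isBoundedUnder_of_eventually_le (a := c + 1) (hu' (c + 1) (by linarith))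
  apply le_antisymm
  · refine le_of_forall_gt_imp_ge_of_dense fun γ hγ => ?_
    exact limsup_le_of_le hbelow.isCoboundedUnder_le (hu' γ hγ)
  · refine le_of_forall_lt_imp_le_of_dense fun γ hγ => ?_
    obtain ⟨γ', hg1, hg2⟩ := exists_between (max_lt hγ hc)
    have hg0 : 0 < γ' := (le_max_right _ _).trans_lt hg1
    have hg1' : γ < γ' := (le_max_left _ _).trans_lt hg1
    refine le_limsup_of_frequently_le ?_ habove
    rw [frequently_atTop]
    intro N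
    obtain ⟨j, h1, h2, h3⟩ := ((hl γ' hg0 hg2).and ((eventually_ge_atTop N).and (eventually_ge_atTop 1))).exists
    obtain ⟨n, hn, h4⟩ := h1
    rw [Finset.mem_Ioc] at hn
    have h5 : j < 2 ^ j := Nat.lt_two_pow_self
    have hn1 : 1 < n := by omega
    refine ⟨n, by omega, ?_⟩
    have h6 : 0 < Real.log n := Real.log_pos (by exact_mod_cast hn1)
    rw [le_div_iff₀ h6]
    nlinarith

end Pool.Agent.N909.CL
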