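import Mathlib
import Pool.Agent.N909.CL.Sz
import Pool.Agent.N909.CM.Cst

set_option autoImplicit false
set_option linter.unusedSectionVars false

/-! # Random Collatz maps: the sharp constant for the steps of the map `3n+1`, `n/2` -/

open MeasureTheory Filter Set
open scoped ENNReal Topology

namespace Pool.Agent.N909.CL

open Pool.Agent.R528.RM Pool.Agent.N909.CM

/-- the positions of the steps up -/
def posT : ℕ → List Bool → List ℕ
  | _, [] => []
  | n, d :: w => if d = true then n :: posT (stp d n) w else posT (stp d n) w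

lemma posT_sub : ∀ (w : List Bool) (n : ℕ), (posT n w).Sublist (pos n w)
  | [], n => List.Sublist.refl _
  | d :: w, n => by
    simp only [posT, pos]
    by_cases h : d = true
    · rw [if_pos h]
      exact (posT_sub w _).cons₂ n
    · rw [if_neg h]
      exact (posT_sub w _).cons n

lemma posT_len : ∀ (w : List Bool) (n : ℕ), (posT n w).length = w.count true
  | [], n => rfl
  | d :: w, n => by
    simp only [posT]
    rcases d with _ | _
    · simp [posT_len w]
    · simp [posT_len w]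

variable {Ω : Type} {m0 : MeasurableSpace Ω} {μ : Measure Ω}
  {ℱ : Filtration ℕ m0} {B : ℕ → Set Ω}

lemma posT_B {ω : Ω} : ∀ (w : List Bool) (n : ℕ), W μ ℱ B n w ω ≠ 0 → ∀ p ∈ posT n w, ω ∈ B p
  | [], n, _, p, hp => by simp [posT] at hp
  | d :: w, n, h, p, hp => by
    simp only [W] at h
    have h1 : y μ ℱ B d n ω ≠ 0 := left_ne_zero_of_mul h
    have h2 : W μ ℱ B (stp d n) w ω ≠ 0 := right_ne_zero_of_mul h
    simp only [posT] at hp
    by_cases hd : d = true
    · rw [if_pos hd, List.mem_cons] at hp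
      rcases hp with hp | hp
      · rw [hp]
        by_contra hω
        unfold y at h1
        rw [if_pos hd, if_neg hω, zero_div] at h1
        exact h1 rfl
      · exact posT_B w _ h2 p hp
    · rw [if_neg hd] at hp
      exact posT_B w _ h2 p hp

lemma hgt_ge {ω : Ω} {w : List Bool} {n : ℕ} (h : W μ ℱ B n w ω ≠ 0) (hnd : (pos n w).Nodup)
    (hfin : (orb (T B ω) n).Finite) : w.count true ≤ hgt B ω n := by
  classical
  have h1 := W_path w n h
  have h2 : (((posT n w).toFinset : Finset ℕ) : Set ℕ) ⊆ {x | x ∈ orb (T B ω) n ∧ ω ∈ B x} := by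
    intro p hp
    simp only [List.coe_toFinset, mem_ofPred_eq] at hp
    have hp' := (posT_sub w n).subset hp
    obtain ⟨i, hi, hpi⟩ := List.getElem_of_mem hp'
    have hi' : i < w.length := by rwa [pos_length] at hi
    rw [pos_get w n i hi'] at hpi
    exact ⟨⟨i, by rw [← hpi]; exact h1 i hi'.le⟩, posT_B w n h p hp⟩
  have h3 := Set.ncard_le_ncard h2 (hfin.subset fun x hx => hx.1)
  rw [Set.ncard_coe_finset, List.toFinset_card_of_nodup ((posT_sub w n).nodup hnd), posT_len] at h3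
  exact h3

variable [IsProbabilityMeasure μ]

lemma count_pat (hE : StmE) {b u J : ℕ} (hb : 1 ≤ b) (hu : u ≤ b) {w : List Bool} (hw : w ∈ Pat b u J) :
    u * J ≤ w.count true := by
  obtain ⟨h1, h2, -⟩ := (hE b u J hb hu).2 w hw
  have h3 := (h2 (b * J) le_rfl).1
  rw [← h1, List.take_length, h1, Nat.mul_div_cancel_left _ (by omega : 0 < b)] at h3
  rw [mul_comm]
  exact h3

/-- **long trajectories, steps up counted twice** -/
theorem csteps_lower (hB : ∀ n, MeasurableSet[ℱ n] (B n))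
    (hd : ∀ η : ℝ, 0 < η → ∀ᶠ n : ℕ in atTop, ∀ᵐ ω ∂μ, |dens μ ℱ B n ω - 1 / 2| ≤ η)
    {p : ℝ} (hp : 1 / 2 < p) (hp1 : p < 1) (hpe : Real.binEntropy p = p * Real.log 3) {γ : ℝ} (hγ : 0 < γ)
    (hγ1 : γ < (1 + p) / (Real.log 2 - p * Real.log 3)) :
    ∀ᵐ ω ∂μ, ∀ᶠ j : ℕ in atTop, ∃ n : ℕ, n ∈ Finset.Ioc (2 ^ j) (2 * 2 ^ j) ∧
      γ * Real.log n < (((orb (T B ω) n).ncard + hgt B ω n : ℕ) : ℝ) := by
  have H := allS
  have hl2 : 0 < Real.log 2 := Real.log_pos (by norm_num)
  have hl3 : 0 < Real.log 3 := Real.log_pos (by norm_num)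
  have hD : 0 < Real.log 2 - p * Real.log 3 := (sI p hp hp1 hpe).1
  set g₁ : ℝ := (γ * Real.log 3 + 1) / (Real.log 3 + Real.log 2) with hg₁
  have hg₁0 : 0 < g₁ := by rw [hg₁]; positivity
  have hg₁c : g₁ < 1 / (Real.log 2 - p * Real.log 3) := by
    rw [hg₁, div_lt_div_iff₀ (by positivity) hD]
    rw [lt_div_iff₀ hD] at hγ1
    nlinarith
  obtain ⟨b, u, hu0, hub, h32, h3c, hγ2⟩ := (sI p hp hp1 hpe).2.1 g₁ hg₁0 hg₁c
  have hR1 : (1 : ℝ) < (2 : ℝ) ^ b / 3 ^ u := by
    rw [one_lt_div (by positivity)]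
    exact_mod_cast h32
  have hlR : 0 < Real.log ((2 : ℝ) ^ b / 3 ^ u) := Real.log_pos hR1
  have hlogR : Real.log ((2 : ℝ) ^ b / 3 ^ u) = b * Real.log 2 - u * Real.log 3 := by
    rw [Real.log_div (by positivity) (by positivity), Real.log_pow, Real.log_pow]
  have hb0 : (0 : ℝ) < b := by exact_mod_cast (by omega : 0 < b)
  set s : ℝ := (b : ℝ) + u with hs
  have hs0 : 0 < s := by rw [hs]; positivity
  have hγs : γ < s / Real.log ((2 : ℝ) ^ b / 3 ^ u) := by
    rw [lt_div_iff₀ hlR] at hγ2 ⊢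
    rw [hg₁, div_mul_eq_mul_div, div_lt_iff₀ (by positivity)] at hγ2
    have h1 : γ * Real.log 3 * Real.log ((2 : ℝ) ^ b / 3 ^ u) < s * Real.log 3 := by
      rw [hlogR] at hγ2 ⊢
      rw [hs]
      linarith
    have h2 : (γ * Real.log ((2 : ℝ) ^ b / 3 ^ u)) * Real.log 3 < s * Real.log 3 := by linarith
    exact lt_of_mul_lt_mul_right h2 hl3.le
  have h1 : Real.log ((2 : ℝ) ^ b / 3 ^ u) < s / γ := by
    rw [lt_div_iff₀ hlR] at hγs
    rw [lt_div_iff₀ hγ]
    linarith
  obtain ⟨a, ha1, ha2⟩ := exists_between h1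
  have ha0 : 0 < a := hlR.trans ha1
  have h2 : γ < s / a := by
    rw [lt_div_iff₀ hγ] at ha2
    rw [lt_div_iff₀ ha0]
    linarith
  obtain ⟨g, hg1, hg2⟩ := exists_between h2
  have hg0 : 0 < g := hγ.trans hg1
  set δ : ℝ := 1 - g * a / s with hδ
  have hδ0 : 0 < δ := by
    rw [lt_div_iff₀ ha0] at hg2
    rw [hδ, sub_pos, div_lt_one hs0]
    exact hg2
  have hδ1 : δ < 1 := by
    rw [hδ]
    have : 0 < g * a / s := by positivity
    linarith
  set A : ℝ := Real.exp a with hA
  have hA1 : 1 < A := Real.one_lt_exp_iff.2 ha0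
  have hlA : Real.log A = a := Real.log_exp a
  have hRA : (2 : ℝ) ^ b / 3 ^ u < A := by
    rw [hA, ← Real.log_lt_iff_lt_exp (by positivity)]
    exact ha1
  have hA3 : (2 : ℝ) ^ b < A * (b.choose u) := by
    rw [div_lt_iff₀ (by positivity)] at hRA
    refine hRA.trans_le (mul_le_mul_of_nonneg_left ?_ (by linarith))
    exact_mod_cast h3c
  have hne : 2 ^ b ≠ 3 ^ u := h32.ne'
  have hfin := all_finite (μ := μ) (ℱ := ℱ) hB (hd_ae hd)
  filter_upwards [paths H μ ℱ B hB hd (by omega : 1 ≤ b) hub.le hne hA1 hRA.le hA3 hδ0 hδ1, hfin] with ω hω hf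
  have hlim : Tendsto (fun j : ℕ => ((g - γ) * Real.log 2) * (j : ℝ)) atTop atTop :=
    tendsto_natCast_atTop_atTop.const_mul_atTop (mul_pos (by linarith) hl2)
  filter_upwards [hω, hlim.eventually_gt_atTop (s + γ * Real.log 2)] with j hj hj2
  obtain ⟨n, hn, w, hw, h3, h4, -⟩ := hj
  refine ⟨n, hn, ?_⟩
  have h5 := (orb_ge h3 h4 (hf n)).1
  have h5' := hgt_ge h3 h4 (hf n)
  have h5'' := count_pat H.E (by omega : 1 ≤ b) hub.le hw
  have hlen := ((H.E b u (Jn δ A j) (by omega) hub.le).2 w hw).1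
  rw [hlen] at h5
  have h6 : s * (Jn δ A j : ℕ) ≤ (((orb (T B ω) n).ncard + hgt B ω n : ℕ) : ℝ) := by
    rw [hs, add_mul]
    push_cast
    have e1 : (b : ℝ) * (Jn δ A j : ℕ) ≤ ((orb (T B ω) n).ncard : ℝ) := by exact_mod_cast h5
    have e2 : (u : ℝ) * (Jn δ A j : ℕ) ≤ (hgt B ω n : ℝ) := by exact_mod_cast h5''.trans h5'
    linarith
  have h7 := Jn_ge (δ := δ) hA1 j
  rw [hlA] at h7
  have h8 : s * ((1 - δ) * (j * Real.log 2) / a - 1) = g * (j * Real.log 2) - s := by
    rw [hδ]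
    field_simp
    ring
  have h9 : g * (j * Real.log 2) - s ≤ s * (Jn δ A j : ℕ) := by
    rw [← h8]
    exact mul_le_mul_of_nonneg_left h7 hs0.le
  rw [Finset.mem_Ioc] at hn
  have hn0 : (0 : ℝ) < n := by
    have : 0 < 2 ^ j := by positivity
    exact_mod_cast (by omega : 0 < n)
  have h10 : Real.log n ≤ (j : ℝ) * Real.log 2 + Real.log 2 := by
    have h11 : (n : ℝ) ≤ 2 * 2 ^ j := by exact_mod_cast hn.2
    calc Real.log n ≤ Real.log (2 * 2 ^ j) := Real.log_le_log hn0 h11
      _ = (j : ℝ) * Real.log 2 + Real.log 2 := by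
        rw [Real.log_mul (by norm_num) (by positivity), Real.log_pow]
        ring
  have h12 : γ * Real.log n ≤ γ * ((j : ℝ) * Real.log 2 + Real.log 2) := mul_le_mul_of_nonneg_left h10 hγ.le
  have h13 : γ * ((j : ℝ) * Real.log 2 + Real.log 2) < g * (j * Real.log 2) - s := by
    have : (g - γ) * Real.log 2 * j = g * (j * Real.log 2) - γ * (j * Real.log 2) := by ring
    rw [this] at hj2
    linarith
  linarith

/-- **the upper bound, steps up counted twice** -/
theorem csteps_upper (hB : ∀ n, MeasurableSet[ℱ n] (B n))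
    (hd : ∀ᵐ ω ∂μ, Tendsto (fun n : ℕ => dens μ ℱ B n ω) atTop (𝓝 (1 / 2)))
    {p : ℝ} (hp : 1 / 2 < p) (hp1 : p < 1) (hpe : Real.binEntropy p = p * Real.log 3) {γ : ℝ}
    (hγ1 : (1 + p) / (Real.log 2 - p * Real.log 3) < γ) :
    ∀ᵐ ω ∂μ, ∀ᶠ n : ℕ in atTop, (((orb (T B ω) n).ncard + hgt B ω n : ℕ) : ℝ) ≤ γ * Real.log n := by
  have hl2 : 0 < Real.log 2 := Real.log_pos (by norm_num)
  have hl3 : 0 < Real.log 3 := Real.log_pos (by norm_num)
  have hD : 0 < Real.log 2 - p * Real.log 3 := (sI p hp hp1 hpe).1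
  set D : ℝ := Real.log 2 - p * Real.log 3 with hDdef
  have hp0 : 0 < p := by linarith
  have hq0 : 0 < 1 - p := by linarith
  set lam : ℝ := Real.log p - Real.log (1 - p) with hlam
  have hlam0 : 0 < lam := by
    rw [hlam, sub_pos]
    exact Real.log_lt_log hq0 (by linarith)
  set t : ℝ := (lam + Real.log 3) * D / (Real.log 2 + Real.log 3) with ht
  have ht0 : 0 < t := by rw [ht]; positivity
  set θ : ℝ := (1 + p) / D * t - 1 with hθ
  have hθt : (1 + θ) = (1 + p) / D * t := by rw [hθ]; ring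
  have hL : Real.log 2 + Real.log 3 ≠ 0 := by positivity
  -- the relations
  have r1 : t + θ * Real.log 3 = lam := by
    have e1 : (1 + p) / D * t = (1 + p) * (lam + Real.log 3) / (Real.log 2 + Real.log 3) := by
      rw [ht]
      field_simp
    rw [hθ, e1, ht, hDdef]
    field_simp
    ring
  have hent : -(p * Real.log p) - (1 - p) * Real.log (1 - p) = p * Real.log 3 := by
    rw [← hpe, Real.binEntropy, Real.log_inv, Real.log_inv]
    ring
  have r2 : t - (θ + 1) * Real.log 2 = Real.log (1 - p) := by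
    have e1 : (1 + p) / D * t = (1 + p) * (lam + Real.log 3) / (Real.log 2 + Real.log 3) := by
      rw [ht]
      field_simp
    have e2 : t - (θ + 1) * Real.log 2 = -(p * (lam + Real.log 3)) := by
      rw [add_comm θ 1, hθt, e1, ht, hDdef]
      field_simp
      ring
    rw [e2, hlam]
    linarith
  have hθ0 : 0 < θ := by
    by_contra hcon
    push Not at hcon
    have h1 : θ * Real.log 3 ≤ 0 := mul_nonpos_of_nonpos_of_nonneg hcon hl3.le
    -- t ≥ lam and t ≤ ...
    have h2 : 0 ≤ -(θ * Real.log 3) := by linarith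
    -- from r2: (θ+1) log 2 = t - log (1-p) > t, and θ ≤ 0 gives t < log 2 - ...
    have h3 : (θ + 1) * Real.log 2 ≤ Real.log 2 := by nlinarith
    have h4 : t ≤ Real.log 2 + Real.log (1 - p) := by linarith
    have h5 : Real.log 2 + Real.log (1 - p) < 0 := by
      rw [← Real.log_mul (by norm_num) hq0.ne']
      exact Real.log_neg (by linarith) (by linarith)
    linarith
  -- the critical equation
  have hcrit : (Real.exp t * (3 / 2 : ℝ) ^ θ + (1 / 2 : ℝ) ^ θ) / 2 = Real.exp (-t) := by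
    have e1 : (3 / 2 : ℝ) ^ θ = Real.exp (θ * Real.log 3 - θ * Real.log 2) := by
      rw [Real.rpow_def_of_pos (by norm_num), Real.log_div (by norm_num) (by norm_num)]
      congr 1
      ring
    have e2 : (1 / 2 : ℝ) ^ θ = Real.exp (-(θ * Real.log 2)) := by
      rw [Real.rpow_def_of_pos (by norm_num), one_div, Real.log_inv]
      congr 1
      ring
    have e3 : Real.exp t * (3 / 2 : ℝ) ^ θ = p / (1 - p) * Real.exp (-(θ * Real.log 2)) := by
      rw [e1, ← Real.exp_add]
      have : t + (θ * Real.log 3 - θ * Real.log 2) = lam + -(θ * Real.log 2) := by linarith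
      rw [this, Real.exp_add, hlam, Real.exp_sub, Real.exp_log hp0, Real.exp_log hq0]
    have e4 : Real.exp (-t) = Real.exp (-(θ * Real.log 2)) / (2 * (1 - p)) := by
      have : -t = -(θ * Real.log 2) - (Real.log 2 + Real.log (1 - p)) := by linarith
      rw [this, Real.exp_sub, Real.exp_add, Real.exp_log (by norm_num : (0 : ℝ) < 2), Real.exp_log hq0]
    rw [e3, e2, e4]
    field_simp
    ring
  -- perturbation
  have hγ0 : 0 < γ := lt_trans (by positivity) hγ1
  have h1 : (1 + θ) / γ < t := by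
    rw [div_lt_iff₀ hγ0, hθt]
    nlinarith
  obtain ⟨t', ht1, ht2⟩ := exists_between h1
  have ht'0 : 0 < t' := lt_trans (div_pos (by linarith) hγ0) ht1
  refine csteps (μ := μ) (ℱ := ℱ) hB hd (θ := θ) (t := t') hθ0 ht'0 ?_ ?_
  · have e1 : Real.exp t' < Real.exp t := Real.exp_lt_exp.2 ht2
    have e2 : Real.exp (-t) < Real.exp (-t') := Real.exp_lt_exp.2 (by linarith)
    have e3 : Real.exp t' * (3 / 2 : ℝ) ^ θ ≤ Real.exp t * (3 / 2 : ℝ) ^ θ :=
      mul_le_mul_of_nonneg_right e1.le (by positivity)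
    linarith
  · rw [div_lt_iff₀ hγ0] at ht1
    linarith

/-- the numerical value -/
theorem const2 {p : ℝ} (h1 : 41.6 < 1 / (Real.log 2 - p * Real.log 3)) (h2 : 1 / (Real.log 2 - p * Real.log 3) < 41.7) :
    66.9 < (1 + p) / (Real.log 2 - p * Real.log 3) ∧ (1 + p) / (Real.log 2 - p * Real.log 3) < 67.1 := by
  have hD : 0 < Real.log 2 - p * Real.log 3 := by
    by_contra hcon
    push Not at hcon
    have : 1 / (Real.log 2 - p * Real.log 3) ≤ 0 := one_div_nonpos.2 hcon
    linarith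
  rw [lt_div_iff₀ hD] at h1
  rw [div_lt_iff₀ hD] at h2
  have e1 := Real.log_two_gt_d9
  have e2 := Real.log_two_lt_d9
  have e3 := l3_lt
  have e4 := l3_gt
  have hl3 : 0 < Real.log 3 := Real.log_pos (by norm_num)
  rw [lt_div_iff₀ hD, div_lt_iff₀ hD]
  have f1 : Real.log 3 < 1.098614 := by linarith
  have f2 : 1.098612 < Real.log 3 := by linarith
  have hp0 : 0 < p := by
    by_contra hcon
    push Not at hcon
    have := mul_nonpos_of_nonpos_of_nonneg hcon hl3.le
    linarith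
  have u1 : p * 1.098612 ≤ p * Real.log 3 := mul_le_mul_of_nonneg_left f2.le hp0.le
  have u2 : p * Real.log 3 ≤ p * 1.098614 := mul_le_mul_of_nonneg_left f1.le hp0.le
  constructor
  · linarith
  · linarith

end Pool.Agent.N909.CL
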