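import Mathlib
import Pool.Agent.N909.CL.Sz

set_option autoImplicit false
set_option linter.unusedSectionVars false

/-! # Random Collatz maps: the largest values have exponent two -/

open MeasureTheory Filter Set
open scoped ENNReal Topology

namespace Pool.Agent.N909.CL

open Pool.Agent.R528.RM Pool.Agent.N909.CM

variable {Ω : Type} {m0 : MeasurableSpace Ω} {μ : Measure Ω} [IsProbabilityMeasure μ]
  {ℱ : Filtration ℕ m0} {B : ℕ → Set Ω}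

theorem val_all (hB : ∀ n, MeasurableSet[ℱ n] (B n))
    (hd : ∀ η : ℝ, 0 < η → ∀ᶠ n : ℕ in atTop, ∀ᵐ ω ∂μ, |dens μ ℱ B n ω - 1 / 2| ≤ η) :
    ∀ᵐ ω ∂μ, (∀ n, (orb (T B ω) n).Finite) ∧ ∀ t : ℕ → ℕ, (∀ n, t n ∈ orb (T B ω) n) →
      (∀ n, ∀ x ∈ orb (T B ω) n, x ≤ t n) →
      (∀ γ : ℝ, 2 < γ → ∀ᶠ n : ℕ in atTop, Real.log (t n) ≤ γ * Real.log n) ∧
      (∀ γ : ℝ, 0 < γ → γ < 2 → ∀ᶠ j : ℕ in atTop, ∃ n : ℕ,
        n ∈ Finset.Ioc (2 ^ j) (2 * 2 ^ j) ∧ γ * Real.log n < Real.log (t n)) := by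
  have h1 : ∀ᵐ ω ∂μ, ∀ m : ℕ, ∀ᶠ n : ℕ in atTop, ∀ x ∈ orb (T B ω) n, (x : ℝ) ≤ (n : ℝ) ^ (2 + 1 / ((m : ℝ) + 1)) :=
    ae_all_iff.2 fun m => largest (μ := μ) (ℱ := ℱ) hB (hd_ae hd) (by positivity)
  have h2 : ∀ᵐ ω ∂μ, ∀ m : ℕ, ∀ᶠ j : ℕ in atTop, ∃ n : ℕ,
        n ∈ Finset.Ioc (2 ^ j) (2 * 2 ^ j) ∧ ∃ x ∈ orb (T B ω) n, (n : ℝ) ^ (2 - 1 / ((m : ℝ) + 2)) < x :=
    ae_all_iff.2 fun m => val_lower allS sJ hB hd (by positivity) (by
      rw [div_lt_one (by positivity)]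
      have : (0 : ℝ) ≤ m := Nat.cast_nonneg m
      linarith)
  filter_upwards [all_finite (μ := μ) (ℱ := ℱ) hB (hd_ae hd), h1, h2] with ω g0 g1 g2
  refine ⟨g0, fun t ht1 ht2 => ⟨fun γ hγ => ?_, fun γ hγ0 hγ => ?_⟩⟩
  · obtain ⟨m, hm⟩ := exists_nat_one_div_lt (show 0 < γ - 2 by linarith)
    filter_upwards [g1 m, eventually_ge_atTop 1] with n hn hn1
    have hn0 : (0 : ℝ) < n := by exact_mod_cast (by omega : 0 < n)
    have h3 := hn (t n) (ht1 n)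
    have hl0 : 0 ≤ Real.log n := Real.log_nonneg (by exact_mod_cast hn1)
    have ht0 : (0 : ℝ) < t n := by
      have : n ≤ t n := ht2 n n ⟨0, rfl⟩
      exact_mod_cast (by omega : 0 < t n)
    have h4 := Real.log_le_log ht0 h3
    rw [Real.log_rpow hn0] at h4
    refine h4.trans (mul_le_mul_of_nonneg_right (by linarith) hl0)
  · obtain ⟨m, hm⟩ := exists_nat_one_div_lt (show 0 < 2 - γ by linarith)
    filter_upwards [g2 m] with j hj
    obtain ⟨n, hn, x, hx, h3⟩ := hj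
    have hn' := Finset.mem_Ioc.1 hn
    have hn1 : 1 ≤ n := by
      have : 0 < 2 ^ j := by positivity
      omega
    have hn0 : (0 : ℝ) < n := by exact_mod_cast hn1
    have hl0 : 0 ≤ Real.log n := Real.log_nonneg (by exact_mod_cast hn1)
    refine ⟨n, hn, ?_⟩
    have h4 : (n : ℝ) ^ (2 - 1 / ((m : ℝ) + 2)) < t n := h3.trans_le (by exact_mod_cast ht2 n x hx)
    have h5 := Real.log_lt_log (by positivity) h4
    rw [Real.log_rpow hn0] at h5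
    refine lt_of_le_of_lt (mul_le_mul_of_nonneg_right ?_ hl0) h5
    have h6 : (1 : ℝ) / ((m : ℝ) + 2) ≤ 1 / ((m : ℝ) + 1) := one_div_le_one_div_of_le (by positivity) (by linarith)
    linarith

end Pool.Agent.N909.CL
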